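import Pool.Agent.Helper160.MF.JL3mult

/-!
# The extension operator of the paraboloid: dispersive weak type bound at a fixed time
-/

set_option autoImplicit false

namespace Pool.Agent.TH297.QC

open MeasureTheory Set Filter Topology Complex
open scoped Pointwise ENNReal FourierTransform RealInnerProductSpace
open Pool.Agent.Helper160.MF

variable {m : ℕ}

/-- The extension operator of the paraboloid. -/
noncomputable def ext (f : Eu m → ℂ) (x : Eu m) (t : ℝ) : ℂ :=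
  ∫ ξ : Eu m, Complex.exp ((2 * Real.pi * (⟪ξ, x⟫ + t * ‖ξ‖ ^ 2) : ℝ) * I) * f ξ

/-- the parameter of the Gaussian -/
noncomputable def bb (ε t : ℝ) : ℂ := Real.pi * (ε - 2 * t * I)

theorem bb_re (ε t : ℝ) : (bb ε t).re = Real.pi * ε := by
  simp [bb]

theorem bb_im (ε t : ℝ) : (bb ε t).im = -(Real.pi * (2 * t)) := by
  simp [bb]

/-- the Gaussian -/
noncomputable def gs (ε t : ℝ) (ξ : Eu m) : ℂ := cexp (-(bb ε t) * ‖ξ‖ ^ 2)

theorem gs_eq (ε t : ℝ) (ξ : Eu m) : gs ε t ξ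
    = cexp ((2 * Real.pi * (t * ‖ξ‖ ^ 2) : ℝ) * I) * (Real.exp (-(Real.pi * ε * ‖ξ‖ ^ 2)) : ℝ) := by
  unfold gs bb
  rw [Complex.ofReal_exp, ← Complex.exp_add]
  congr 1
  push_cast
  ring

theorem gs_norm (ε t : ℝ) (ξ : Eu m) : ‖gs ε t ξ‖ = Real.exp (-(Real.pi * ε * ‖ξ‖ ^ 2)) := by
  rw [gs_eq, norm_mul, Complex.norm_exp_ofReal_mul_I, one_mul, Complex.norm_real,
    Real.norm_of_nonneg (Real.exp_pos _).le]

theorem gs_norm_le {ε : ℝ} (hε : 0 < ε) (t : ℝ) (ξ : Eu m) : ‖gs ε t ξ‖ ≤ 1 := by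
  rw [gs_norm, Real.exp_le_one_iff, neg_nonpos]
  have := Real.pi_pos
  positivity

theorem gs_cont (ε t : ℝ) : Continuous (gs ε t : Eu m → ℂ) := by
  unfold gs
  fun_prop

theorem gs_int {ε : ℝ} (hε : 0 < ε) (t : ℝ) : Integrable (gs ε t : Eu m → ℂ) := by
  have h := GaussianFourier.integrable_cexp_neg_mul_sq_norm_add (V := Eu m) (b := bb ε t)
    (by rw [bb_re]; have := Real.pi_pos; positivity) 0 0
  refine h.congr (Eventually.of_forall fun v => ?_)
  simp [gs]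

/-- the kernel -/
noncomputable def kr (ε t : ℝ) (y : Eu m) : ℂ :=
  (Real.pi / bb ε t) ^ (Module.finrank ℝ (Eu m) / 2 : ℂ) * cexp (-Real.pi ^ 2 * ‖y‖ ^ 2 / bb ε t)

theorem fourier_gs {ε : ℝ} (hε : 0 < ε) (t : ℝ) : 𝓕 (gs ε t : Eu m → ℂ) = kr ε t := by
  funext w
  have h := fourier_gaussian_innerProductSpace (V := Eu m) (b := bb ε t)
    (by rw [bb_re]; have := Real.pi_pos; positivity) w
  exact h

theorem bb_ne {ε : ℝ} (hε : 0 < ε) (t : ℝ) : bb ε t ≠ 0 := by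
  intro h
  have := bb_re ε t
  rw [h] at this
  have h2 := Real.pi_pos
  simp only [Complex.zero_re] at this
  have : 0 < Real.pi * ε := by positivity
  linarith

/-- `Re (1/b) > 0` -/
theorem inv_bb_re {ε : ℝ} (hε : 0 < ε) (t : ℝ) : 0 < ((bb ε t)⁻¹).re := by
  rw [Complex.inv_re, bb_re]
  have h1 := Complex.normSq_pos.2 (bb_ne hε t)
  have := Real.pi_pos
  positivity

theorem kr_int {ε : ℝ} (hε : 0 < ε) (t : ℝ) : Integrable (kr ε t : Eu m → ℂ) := by
  unfold kr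
  refine Integrable.const_mul ?_ _
  have h := GaussianFourier.integrable_cexp_neg_mul_sq_norm_add (V := Eu m)
    (b := (Real.pi ^ 2 : ℝ) * (bb ε t)⁻¹)
    (by
      rw [Complex.re_ofReal_mul]
      exact mul_pos (by have := Real.pi_pos; positivity) (inv_bb_re hε t)) 0 0
  refine h.congr (Eventually.of_forall fun v => ?_)
  simp only [zero_mul, add_zero]
  congr 1
  push_cast
  rw [div_eq_mul_inv]
  ring

theorem kr_cont (ε t : ℝ) : Continuous (kr ε t : Eu m → ℂ) := by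
  unfold kr
  fun_prop

theorem kr_norm {ε : ℝ} (hε : 0 < ε) {t : ℝ} (ht : t ≠ 0) (y : Eu m) :
    ‖kr ε t y‖ ≤ (2 * |t|) ^ (-((m : ℝ) / 2)) := by
  unfold kr
  rw [norm_mul, finrank_euclideanSpace_fin]
  have e1 : ((m : ℂ) / 2) = (((m : ℝ) / 2 : ℝ) : ℂ) := by push_cast; rfl
  rw [e1, Complex.norm_cpow_real]
  have h2 : ‖cexp (-Real.pi ^ 2 * ‖y‖ ^ 2 / bb ε t)‖ ≤ 1 := by
    rw [Complex.norm_exp, Real.exp_le_one_iff]
    have e2 : (-Real.pi ^ 2 * ‖y‖ ^ 2 / bb ε t : ℂ)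
        = ((-(Real.pi ^ 2 * ‖y‖ ^ 2) : ℝ) : ℂ) * (bb ε t)⁻¹ := by
      push_cast
      rw [div_eq_mul_inv]
      ring
    rw [e2, Complex.re_ofReal_mul]
    have := inv_bb_re hε t
    have h3 : 0 ≤ Real.pi ^ 2 * ‖y‖ ^ 2 := by positivity
    nlinarith
  have h3 : ‖(Real.pi / bb ε t : ℂ)‖ ≤ (2 * |t|)⁻¹ := by
    rw [norm_div, Complex.norm_real, Real.norm_of_nonneg Real.pi_pos.le]
    have h4 : Real.pi * (2 * |t|) ≤ ‖bb ε t‖ := by
      have h5 := Complex.abs_im_le_norm (bb ε t)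
      rw [bb_im, abs_neg, abs_mul, abs_mul, abs_of_pos Real.pi_pos] at h5
      simpa using h5
    have h6 : 0 < ‖bb ε t‖ := norm_pos_iff.2 (bb_ne hε t)
    have h7 : 0 < 2 * |t| := by positivity
    rw [div_le_iff₀ h6, inv_mul_eq_div, le_div_iff₀ h7]
    exact h4
  have h8 : ‖(Real.pi / bb ε t : ℂ)‖ ^ ((m : ℝ) / 2) ≤ (2 * |t|) ^ (-((m : ℝ) / 2)) := by
    have h7 : 0 < 2 * |t| := by positivity
    rw [Real.rpow_neg h7.le, ← Real.inv_rpow h7.le]
    exact Real.rpow_le_rpow (norm_nonneg _) h3 (by positivity)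
  calc _ ≤ (2 * |t|) ^ (-((m : ℝ) / 2)) * 1 :=
        mul_le_mul h8 h2 (norm_nonneg _) (by positivity)
    _ = _ := mul_one _

theorem fourier_kr {ε : ℝ} (hε : 0 < ε) (t : ℝ) : 𝓕 (kr ε t : Eu m → ℂ) = gs ε t := by
  have h1 : 𝓕⁻ (𝓕 (gs ε t : Eu m → ℂ)) = gs ε t :=
    Continuous.fourierInv_fourier_eq (gs_cont ε t) (gs_int hε t)
      (by rw [fourier_gs hε]; exact kr_int hε t)
  rw [fourier_gs hε] at h1
  funext w
  have h2 : 𝓕 (kr ε t : Eu m → ℂ) w = 𝓕⁻ (kr ε t : Eu m → ℂ) (-w) := by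
    rw [Real.fourierInv_eq_fourier_neg, neg_neg]
  rw [h2, h1]
  simp [gs]

/-- regularised extension -/
noncomputable def exe (ε : ℝ) (f : Eu m → ℂ) (x : Eu m) (t : ℝ) : ℂ :=
  ∫ ξ : Eu m, Complex.exp ((2 * Real.pi * ⟪ξ, x⟫ : ℝ) * I) * gs ε t ξ * f ξ

theorem exe_tendsto {f : Eu m → ℂ} (hf : Integrable f) (x : Eu m) (t : ℝ) :
    Tendsto (fun n : ℕ => exe (1 / ((n : ℝ) + 1)) f x t) atTop (𝓝 (ext f x t)) := by
  unfold exe ext
  refine tendsto_integral_of_dominated_convergence (fun ξ => ‖f ξ‖) (fun n => ?_) hf.norm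
    (fun n => Eventually.of_forall fun ξ => ?_) (Eventually.of_forall fun ξ => ?_)
  · refine AEStronglyMeasurable.mul ?_ hf.1
    have := gs_cont (m := m) (1 / ((n : ℝ) + 1)) t
    exact Continuous.aestronglyMeasurable (by fun_prop)
  · rw [norm_mul, norm_mul, Complex.norm_exp_ofReal_mul_I, one_mul]
    have := gs_norm_le (m := m) (ε := 1 / ((n : ℝ) + 1)) (by positivity) t ξ
    calc _ ≤ 1 * ‖f ξ‖ := mul_le_mul_of_nonneg_right this (norm_nonneg _)
      _ = _ := one_mul _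
  · refine Tendsto.mul_const _ ?_
    have e : Complex.exp ((2 * Real.pi * (⟪ξ, x⟫ + t * ‖ξ‖ ^ 2) : ℝ) * I)
        = Complex.exp ((2 * Real.pi * ⟪ξ, x⟫ : ℝ) * I) *
          (cexp ((2 * Real.pi * (t * ‖ξ‖ ^ 2) : ℝ) * I) *
            ((Real.exp (-(Real.pi * 0 * ‖ξ‖ ^ 2)) : ℝ) : ℂ)) := by
      rw [mul_zero, zero_mul, neg_zero, Real.exp_zero, Complex.ofReal_one, mul_one,
        ← Complex.exp_add]
      congr 1
      push_cast
      ring
    rw [e]
    refine Tendsto.const_mul _ ?_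
    simp_rw [gs_eq]
    refine Tendsto.const_mul _ ?_
    refine (Complex.continuous_ofReal.tendsto _).comp ((Real.continuous_exp.tendsto _).comp ?_)
    refine Tendsto.neg ?_
    refine Tendsto.mul_const _ (Tendsto.const_mul _ ?_)
    exact tendsto_one_div_add_atTop_nhds_zero_nat

/-- the function `F z = ∫ f ξ exp (2 π i ⟨ξ, z⟩) dξ` -/
noncomputable def Fi (f : Eu m → ℂ) (z : Eu m) : ℂ := 𝓕⁻ f z

theorem Fi_cont {f : Eu m → ℂ} (hf : Integrable f) : Continuous (Fi f) := by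
  have h1 : Continuous (𝓕 f : Eu m → ℂ) :=
    VectorFourier.fourierIntegral_continuous Real.continuous_fourierChar
      (innerSL ℝ).continuous₂ hf
  have : Fi f = fun z => 𝓕 f (-z) := by
    funext z
    exact Real.fourierInv_eq_fourier_neg _ _
  rw [this]
  exact h1.comp continuous_neg

theorem Fi_norm {f : Eu m → ℂ} (z : Eu m) : ‖Fi f z‖ ≤ ∫ ξ, ‖f ξ‖ := by
  unfold Fi
  rw [Real.fourierInv_eq']
  refine (norm_integral_le_integral_norm _).trans (le_of_eq ?_)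
  congr 1
  funext ξ
  rw [norm_smul, Complex.norm_exp_ofReal_mul_I, one_mul]

theorem exe_eq {f : Eu m → ℂ} (hf : Integrable f) {ε : ℝ} (hε : 0 < ε) (t : ℝ) (x : Eu m) :
    exe ε f x t = ∫ z, kr ε t (x - z) * Fi f z := by
  -- ∫ 𝓕 f (-z) kr (x - z) dz = ∫ 𝓕 f z kr (x + z) dz
  have e1 : ∫ z, kr ε t (x - z) * Fi f z = ∫ z, 𝓕 f z * kr ε t (z + x) := by
    rw [← integral_neg_eq_self (fun z => kr ε t (x - z) * Fi f z) volume]
    congr 1
    funext z
    unfold Fi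
    rw [Real.fourierInv_eq_fourier_neg, neg_neg, sub_neg_eq_add, mul_comm, add_comm x z]
  rw [e1]
  have h3 := VectorFourier.integral_fourierIntegral_smul_eq_flip (L := innerₗ (Eu m))
      (μ := (volume : Measure (Eu m))) (ν := (volume : Measure (Eu m)))
      Real.continuous_fourierChar continuous_inner hf
      (g := fun z => kr ε t (z + x)) ((kr_int hε t).comp_add_right x)
  rw [flip_innerₗ] at h3
  have h4 : ∀ ξ : Eu m, VectorFourier.fourierIntegral Real.fourierChar volume (innerₗ (Eu m))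
      (fun z => kr ε t (z + x)) ξ = Complex.exp ((2 * Real.pi * ⟪ξ, x⟫ : ℝ) * I) * gs ε t ξ := by
    intro ξ
    have h5 := congrFun (VectorFourier.fourierIntegral_comp_add_right Real.fourierChar
      (volume : Measure (Eu m)) (innerₗ (Eu m)) (kr ε t) x) ξ
    have h6 : VectorFourier.fourierIntegral Real.fourierChar volume (innerₗ (Eu m))
        (kr ε t) ξ = gs ε t ξ := by
      rw [← fourier_kr hε t]; rfl
    rw [h6] at h5
    rw [show (fun z => kr ε t (z + x)) = (kr ε t ∘ fun v : Eu m => v + x) from rfl, h5,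
      Circle.smul_def, Real.fourierChar_apply, smul_eq_mul]
    congr 2
    rw [innerₗ_apply_apply, real_inner_comm]
    
  have h7 : ∫ z, 𝓕 f z * kr ε t (z + x) = ∫ ξ, f ξ * (Complex.exp ((2 * Real.pi * ⟪ξ, x⟫ : ℝ) * I)
      * gs ε t ξ) := by
    simp only [h4, smul_eq_mul] at h3
    exact h3
  rw [h7]
  unfold exe
  congr 1
  funext ξ
  ring

end Pool.Agent.TH297.QC
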