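import Pool.Agent.Helper160.MF.JL3mult

/-!
# Convex sets: translations along chords, and an approximate Auerbach basis of chords
-/

set_option autoImplicit false

namespace Pool.Agent.TH297.QC

open MeasureTheory Set
open scoped Pointwise ENNReal
open Pool.Agent.Helper160.MF

variable {m : ℕ}

/-- The part of `K` which leaves `K` under a small translation along a chord is small. -/
theorem chord_shift {K : Set (Eu m)} (hK : Convex ℝ K) (hKm : MeasurableSet K)
    (hfin : volume K ≠ ∞) {a b : Eu m} (ha : a ∈ K) (hb : b ∈ K) {s : ℝ} (h0 : 0 ≤ s)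
    (h1 : s ≤ 1) :
    volume (K \ {x | x - s • (a - b) ∈ K}) ≤ ENNReal.ofReal (m * s) * volume K := by
  have hsub : (AffineMap.homothety a (1 - s)) '' K ⊆ K ∩ {x | x - s • (a - b) ∈ K} := by
    rintro _ ⟨k, hk, rfl⟩
    have e1 : AffineMap.homothety a (1 - s) k = (1 - s) • k + s • a := by
      rw [AffineMap.homothety_apply, vsub_eq_sub, vadd_eq_add, smul_sub, sub_smul, sub_smul]
      simp only [one_smul]
      abel
    rw [e1]
    refine ⟨hK hk ha (by linarith) h0 (by ring), ?_⟩
    have e2 : (1 - s) • k + s • a - s • (a - b) = (1 - s) • k + s • b := by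
      rw [smul_sub]; abel
    rw [mem_ofPred_eq, e2]
    exact hK hk hb (by linarith) h0 (by ring)
  have hm : MeasurableSet {x : Eu m | x - s • (a - b) ∈ K} :=
    (measurable_id.sub_const _) hKm
  have hvol : ENNReal.ofReal ((1 - s) ^ m) * volume K ≤ volume (K ∩ {x | x - s • (a - b) ∈ K}) := by
    refine le_trans (le_of_eq ?_) (measure_mono hsub)
    rw [Measure.addHaar_image_homothety, finrank_euclideanSpace_fin,
      abs_of_nonneg (pow_nonneg (by linarith) m)]
  have hsplit : volume (K ∩ {x | x - s • (a - b) ∈ K}) + volume (K \ {x | x - s • (a - b) ∈ K})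
      = volume K := measure_inter_add_sdiff K hm
  have hb' : 1 - (m : ℝ) * s ≤ (1 - s) ^ m := by
    have := one_add_mul_le_pow (a := -s) (by linarith) m
    simpa [sub_eq_add_neg] using this
  -- in reals
  have hf1 : volume (K ∩ {x | x - s • (a - b) ∈ K}) ≠ ∞ :=
    ne_top_of_le_ne_top hfin (measure_mono inter_subset_left)
  have hf2 : volume (K \ {x | x - s • (a - b) ∈ K}) ≠ ∞ :=
    ne_top_of_le_ne_top hfin (measure_mono sdiff_subset)
  have hms : 0 ≤ (m : ℝ) * s := by positivity
  rw [← ENNReal.toReal_le_toReal hf2 (ENNReal.mul_ne_top ENNReal.ofReal_ne_top hfin),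
    ENNReal.toReal_mul, ENNReal.toReal_ofReal hms]
  have h2 : (volume (K ∩ {x | x - s • (a - b) ∈ K})).toReal
      + (volume (K \ {x | x - s • (a - b) ∈ K})).toReal = (volume K).toReal := by
    rw [← ENNReal.toReal_add hf1 hf2, hsplit]
  have h3 : (1 - s) ^ m * (volume K).toReal
      ≤ (volume (K ∩ {x | x - s • (a - b) ∈ K})).toReal := by
    have := (ENNReal.toReal_le_toReal (ENNReal.mul_ne_top ENNReal.ofReal_ne_top hfin) hf1).2 hvol
    rwa [ENNReal.toReal_mul, ENNReal.toReal_ofReal (pow_nonneg (by linarith) m)] at this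
  have h4 : 0 ≤ (volume K).toReal := ENNReal.toReal_nonneg
  nlinarith

/-- The cube `{x | ∀ i, |x i| ≤ r}` has volume `(2 r) ^ m`. -/
theorem vol_cube (r : ℝ) : volume {x : Eu m | ∀ i, |x i| ≤ r} = ENNReal.ofReal (2 * r) ^ m := by
  have h1 : {x : Eu m | ∀ i, |x i| ≤ r}
      = (@WithLp.ofLp 2 (Fin m → ℝ)) ⁻¹' (Set.pi univ fun _ => Icc (-r) r) := by
    ext x
    simp only [abs_le, mem_preimage, mem_univ_pi, mem_Icc]
    rfl
  rw [h1, (PiLp.volume_preserving_ofLp (Fin m)).measure_preimage
    (MeasurableSet.univ_pi fun _ => measurableSet_Icc).nullMeasurableSet, volume_pi_pi]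
  simp only [Real.volume_Icc, Finset.prod_const, Finset.card_univ, Fintype.card_fin]
  congr 2
  ring

theorem vol_unit_cube : volume {x : Eu m | ∀ i, 0 ≤ x i ∧ x i ≤ 1} = 1 := by
  have h1 : {x : Eu m | ∀ i, 0 ≤ x i ∧ x i ≤ 1}
      = (@WithLp.ofLp 2 (Fin m → ℝ)) ⁻¹' (Set.pi univ fun _ => Icc 0 1) := by
    ext x
    simp only [mem_preimage, mem_univ_pi, mem_Icc]
    rfl
  rw [h1, (PiLp.volume_preserving_ofLp (Fin m)).measure_preimage
    (MeasurableSet.univ_pi fun _ => measurableSet_Icc).nullMeasurableSet, volume_pi_pi]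
  simp

/-- the linear map of a matrix -/
noncomputable abbrev lin (M : Matrix (Fin m) (Fin m) ℝ) : Eu m →ₗ[ℝ] Eu m :=
  Matrix.toEuclideanLin M

theorem det_lin (M : Matrix (Fin m) (Fin m) ℝ) : LinearMap.det (lin M) = M.det := by
  unfold lin
  rw [Matrix.toEuclideanLin_eq_toLin]
  exact LinearMap.det_toLin _ _

/-- the `j`-th column of `M` as a vector -/
def colv (M : Matrix (Fin m) (Fin m) ℝ) (j : Fin m) : Eu m := WithLp.toLp 2 (fun i => M i j)

theorem lin_apply_sum (M : Matrix (Fin m) (Fin m) ℝ) (t : Eu m) :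
    lin M t = ∑ j, t j • colv M j := by
  ext i
  simp [lin, colv, Matrix.toEuclideanLin_apply, Matrix.mulVec, dotProduct, mul_comm]

/-- All the columns of `M` are chords of `K`. -/
def Chords (K : Set (Eu m)) (M : Matrix (Fin m) (Fin m) ℝ) : Prop := ∀ j, colv M j ∈ K - K

theorem det_chords {K : Set (Eu m)} (hm : 1 ≤ m) (hK : Convex ℝ K) (hfin : volume K ≠ ∞)
    {M : Matrix (Fin m) (Fin m) ℝ} (hM : Chords K M) :
    |M.det| ≤ (m : ℝ) ^ m * (volume K).toReal := by
  choose a ha b hb hab using fun j => mem_sub.1 (hM j)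
  set c : Eu m := (1 / (m : ℝ)) • ∑ j, b j with hc
  have hm0 : (0 : ℝ) < m := by exact_mod_cast hm
  have hsub : (fun x => c + x) '' ((lin ((1 / (m : ℝ)) • M)) '' {x : Eu m | ∀ i, 0 ≤ x i ∧ x i ≤ 1})
      ⊆ K := by
    rintro _ ⟨_, ⟨t, ht, rfl⟩, rfl⟩
    have e : c + lin ((1 / (m : ℝ)) • M) t
        = ∑ j, (1 / (m : ℝ)) • ((1 - t j) • b j + t j • a j) := by
      rw [lin_apply_sum, hc, Finset.smul_sum, ← Finset.sum_add_distrib]
      refine Finset.sum_congr rfl fun j _ => ?_
      have e1 : colv ((1 / (m : ℝ)) • M) j = (1 / (m : ℝ)) • (a j - b j) := by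
        rw [hab j]
        ext i
        simp [colv]
      rw [e1, smul_comm (t j), ← smul_add]
      congr 1
      rw [smul_sub, sub_smul, one_smul]
      abel
    simp only
    rw [e]
    refine hK.sum_mem (fun _ _ => by positivity) ?_ (fun j _ => ?_)
    · rw [Finset.sum_const, Finset.card_univ, Fintype.card_fin, nsmul_eq_mul]
      field_simp
    · exact hK (hb j) (ha j) (by linarith [(ht j).2]) (ht j).1 (by ring)
  have hv := measure_mono (μ := volume) hsub
  rw [image_add_left, measure_preimage_add, Measure.addHaar_image_linearMap, det_lin,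
    vol_unit_cube, mul_one, Matrix.det_smul, Fintype.card_fin] at hv
  have h2 := (ENNReal.ofReal_le_iff_le_toReal hfin).1 hv
  rw [abs_mul, abs_of_nonneg (by positivity : (0 : ℝ) ≤ (1 / (m : ℝ)) ^ m)] at h2
  have h3 : |M.det| = (m : ℝ) ^ m * ((1 / (m : ℝ)) ^ m * |M.det|) := by
    rw [← mul_assoc, ← mul_pow]
    rw [mul_one_div_cancel hm0.ne', one_pow, one_mul]
  rw [h3]
  exact mul_le_mul_of_nonneg_left h2 (by positivity)

theorem exists_chords {K : Set (Eu m)} (hK : Convex ℝ K) (hpos : volume K ≠ 0) :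
    ∃ M : Matrix (Fin m) (Fin m) ℝ, Chords K M ∧ M.det ≠ 0 := by
  have hspan : affineSpan ℝ K = ⊤ := by
    by_contra h
    exact hpos (measure_mono_null (subset_affineSpan ℝ K) (Measure.addHaar_affineSubspace _ _ h))
  have hne : K.Nonempty := by
    rw [nonempty_iff_ne_empty]
    rintro rfl
    exact hpos measure_empty
  have hv : vectorSpan ℝ K = ⊤ := by
    rw [← direction_affineSpan, hspan, AffineSubspace.direction_top]
  have hs : ⊤ ≤ Submodule.span ℝ (K - K) := by
    rw [← hv, vectorSpan]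
    exact le_of_eq rfl
  let bas := Module.Basis.ofSpan hs
  have hmem : ∀ i, bas i ∈ K - K := fun i => Module.Basis.ofSpan_subset hs (mem_range_self i)
  let e := bas.indexEquiv (PiLp.basisFun 2 ℝ (Fin m))
  let bas' := bas.reindex e
  have hmem' : ∀ i, bas' i ∈ K - K := fun i => by
    simp only [bas', Module.Basis.reindex_apply]
    exact hmem _
  refine ⟨Matrix.of fun i j => bas' j i, fun j => ?_, ?_⟩
  · have : colv (Matrix.of fun i j => bas' j i) j = bas' j := by
      ext i
      simp [colv]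
    rw [this]
    exact hmem' j
  · have h1 := (PiLp.basisFun 2 ℝ (Fin m)).isUnit_det bas'
    have h2 : (PiLp.basisFun 2 ℝ (Fin m)).toMatrix bas' = Matrix.of fun i j => bas' j i := by
      ext i j
      simp [Module.Basis.toMatrix_apply]
    rw [Module.Basis.det_apply, h2] at h1
    exact h1.ne_zero

/-- An approximate Auerbach basis of chords. -/
theorem auerbach {K : Set (Eu m)} (hm : 1 ≤ m) (hK : Convex ℝ K) (hpos : volume K ≠ 0)
    (hfin : volume K ≠ ∞) :
    ∃ M : Matrix (Fin m) (Fin m) ℝ, Chords K M ∧ M.det ≠ 0 ∧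
      volume K ≤ ENNReal.ofReal (4 ^ m * |M.det|) := by
  set D : Set ℝ := {r | ∃ M : Matrix (Fin m) (Fin m) ℝ, Chords K M ∧ r = |M.det|} with hD
  have hbdd : BddAbove D := by
    refine ⟨(m : ℝ) ^ m * (volume K).toReal, ?_⟩
    rintro _ ⟨M, hM, rfl⟩
    exact det_chords hm hK hfin hM
  obtain ⟨M0, hM0, hdet0⟩ := exists_chords hK hpos
  have hpos0 : 0 < sSup D :=
    lt_of_lt_of_le (abs_pos.2 hdet0) (le_csSup hbdd ⟨M0, hM0, rfl⟩)
  obtain ⟨_, ⟨M, hM, rfl⟩, hlt⟩ := exists_lt_of_lt_csSup (s := D) ⟨_, M0, hM0, rfl⟩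
    (half_lt_self hpos0)
  have hdet : M.det ≠ 0 := by
    intro h
    rw [h, abs_zero] at hlt
    linarith
  refine ⟨M, hM, hdet, ?_⟩
  -- the coefficients of a chord are at most 2
  have hcoef : ∀ w ∈ K - K, ∀ i, |M.cramer (WithLp.ofLp w) i / M.det| ≤ 2 := by
    intro w hw i
    have h1 : Chords K (M.updateCol i (WithLp.ofLp w)) := by
      intro j
      by_cases hj : j = i
      · subst hj
        have : colv (M.updateCol j (WithLp.ofLp w)) j = w := by
          ext k
          simp [colv]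
        rw [this]
        exact hw
      · have : colv (M.updateCol i (WithLp.ofLp w)) j = colv M j := by
          ext k
          simp [colv, Matrix.updateCol_ne hj]
        rw [this]
        exact hM j
    have h2 : |(M.updateCol i (WithLp.ofLp w)).det| ≤ sSup D := le_csSup hbdd ⟨_, h1, rfl⟩
    rw [Matrix.cramer_apply, abs_div, div_le_iff₀ (abs_pos.2 hdet)]
    linarith
  have hne : K.Nonempty := by
    rw [nonempty_iff_ne_empty]
    rintro rfl
    exact hpos measure_empty
  obtain ⟨p, hp⟩ := hne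
  have hsub : K ⊆ (fun x => p + x) '' (lin M '' {x : Eu m | ∀ i, |x i| ≤ 2}) := by
    intro k hk
    refine ⟨k - p, ⟨WithLp.toLp 2 (fun i => M.cramer (WithLp.ofLp (k - p)) i / M.det), ?_, ?_⟩,
      by simp⟩
    · intro i
      exact hcoef (k - p) (sub_mem_sub hk hp) i
    · unfold lin
      rw [Matrix.toEuclideanLin_apply]
      have e1 : (fun i => M.cramer (WithLp.ofLp (k - p)) i / M.det)
          = (M.det)⁻¹ • M.cramer (WithLp.ofLp (k - p)) := by
        funext i
        simp [div_eq_inv_mul]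
      have e2 : M.mulVec (fun i => M.cramer (WithLp.ofLp (k - p)) i / M.det)
          = WithLp.ofLp (k - p) := by
        rw [e1, Matrix.mulVec_smul, Matrix.mulVec_cramer, smul_smul, inv_mul_cancel₀ hdet, one_smul]
      simp only
      rw [e2]
  have hv := measure_mono (μ := volume) hsub
  rw [image_add_left, measure_preimage_add, Measure.addHaar_image_linearMap, det_lin,
    vol_cube] at hv
  refine hv.trans (le_of_eq ?_)
  rw [← ENNReal.ofReal_pow (by norm_num), ← ENNReal.ofReal_mul (abs_nonneg _), mul_comm]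
  norm_num

/-- the functional `y ↦ max |⟨v_i, y⟩|` in the form of a region -/
def reg (M : Matrix (Fin m) (Fin m) ℝ) (r : ℝ) : Set (Eu m) :=
  {y | ∀ j, |inner ℝ (colv M j) y| ≤ r}

theorem reg_eq (M : Matrix (Fin m) (Fin m) ℝ) (r : ℝ) :
    reg M r = (lin M.transpose) ⁻¹' {x : Eu m | ∀ i, |x i| ≤ r} := by
  ext y
  have : ∀ j, inner ℝ (colv M j) y = (lin M.transpose y) j := by
    intro j
    simp [colv, lin, Matrix.toEuclideanLin_apply, Matrix.mulVec, dotProduct, PiLp.inner_apply,
      mul_comm]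
  change (∀ j, |inner ℝ (colv M j) y| ≤ r) ↔ ∀ j, |(lin M.transpose y) j| ≤ r
  simp only [this]

theorem vol_reg (M : Matrix (Fin m) (Fin m) ℝ) (hdet : M.det ≠ 0) (r : ℝ) :
    volume (reg M r) = ENNReal.ofReal |M.det|⁻¹ * ENNReal.ofReal (2 * r) ^ m := by
  rw [reg_eq, Measure.addHaar_preimage_linearMap _ (by rw [det_lin, Matrix.det_transpose]; exact hdet),
    det_lin, Matrix.det_transpose, vol_cube, abs_inv]

theorem reg_measurable (M : Matrix (Fin m) (Fin m) ℝ) (r : ℝ) : MeasurableSet (reg M r) := by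
  have : reg M r = ⋂ j, {y | |inner ℝ (colv M j) y| ≤ r} := by
    ext y
    simp [reg]
  rw [this]
  refine MeasurableSet.iInter fun j => ?_
  exact measurableSet_le (by fun_prop) measurable_const

theorem vol_reg_mul {K : Set (Eu m)} {M : Matrix (Fin m) (Fin m) ℝ} (hdet : M.det ≠ 0)
    (hvol : volume K ≤ ENNReal.ofReal (4 ^ m * |M.det|)) {r : ℝ} (hr : 0 ≤ r) :
    volume (reg M r) * volume K ≤ ENNReal.ofReal ((8 * r) ^ m) := by
  rw [vol_reg M hdet]
  refine (mul_le_mul_right hvol _).trans (le_of_eq ?_)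
  rw [← ENNReal.ofReal_pow (by positivity), ← ENNReal.ofReal_mul (by positivity),
    ← ENNReal.ofReal_mul (by positivity)]
  congr 1
  have h := abs_pos.2 hdet
  field_simp
  rw [← mul_pow]
  congr 1
  ring

end Pool.Agent.TH297.QC
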