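import Pool.Agent.TH297.QC.Marc

/-!
# Interpolation along the superlevel sets
-/

set_option autoImplicit false

namespace Pool.Agent.TH297.QC

open MeasureTheory Set Filter Topology Complex
open scoped ENNReal RealInnerProductSpace
open Pool.Agent.Helper160.MF

/-- one of the two exponents -/
theorem interp_one {Z : Type*} [MeasurableSpace Z] {nu : Measure Z} [SFinite nu]
    {u : ℝ → Z → ℝ≥0∞} (hu : Measurable (Function.uncurry u)) {v : ℝ → ℝ≥0∞}
    {p r gam : ℝ} (hr : 1 ≤ r - gam) {C : ℝ≥0∞} (hC : C ≠ ∞)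
    (hC1 : ∀ s, 0 < s → ∫⁻ z, u s z ^ r ∂nu ≤ C * v s ^ (r - gam))
    (hv1 : ∀ s, 0 < s → ENNReal.ofReal (s ^ p) * v s ≤ 1)
    (hv2 : ∫⁻ s in Ioi 0, ENNReal.ofReal (s ^ (p - 1)) * v s ≤ 1) :
    ∫⁻ z, (∫⁻ s in Ioi 0, ENNReal.ofReal (s ^ (p * (r - gam) - 1)) * u s z ^ r) ∂nu ≤ C := by
  have hm : Measurable (Function.uncurry fun (z : Z) (s : ℝ) =>
      ENNReal.ofReal (s ^ (p * (r - gam) - 1)) * u s z ^ r) := by
    refine Measurable.mul ?_ ?_
    · exact (measurable_snd.pow_const _).ennreal_ofReal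
    · exact (hu.comp measurable_swap).pow_const r
  rw [lintegral_lintegral_swap hm.aemeasurable]
  have h1 : ∀ s ∈ Ioi (0 : ℝ), ∫⁻ z, ENNReal.ofReal (s ^ (p * (r - gam) - 1)) * u s z ^ r ∂nu
      ≤ C * (ENNReal.ofReal (s ^ (p - 1)) * v s) := by
    intro s hs
    have hs0 : (0 : ℝ) < s := hs
    rw [lintegral_const_mul' _ _ ENNReal.ofReal_ne_top]
    refine (mul_le_mul_right (hC1 s hs0) _).trans ?_
    rw [mul_left_comm]
    refine mul_le_mul_right ?_ _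
    set w : ℝ≥0∞ := ENNReal.ofReal (s ^ p) * v s with hw
    have hw1 : w ≤ 1 := hv1 s hs0
    have h2 : w ^ (r - gam) ≤ w := by
      calc w ^ (r - gam) ≤ w ^ (1 : ℝ) := ENNReal.rpow_le_rpow_of_exponent_ge hw1 hr
        _ = w := ENNReal.rpow_one w
    have e1 : ENNReal.ofReal (s ^ (p * (r - gam) - 1)) * v s ^ (r - gam)
        = ENNReal.ofReal (s ^ (-1 : ℝ)) * w ^ (r - gam) := by
      rw [hw, ENNReal.mul_rpow_of_nonneg _ _ (by linarith),
        ENNReal.ofReal_rpow_of_nonneg (by positivity) (by linarith), ← mul_assoc,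
        ← ENNReal.ofReal_mul (by positivity), ← Real.rpow_mul hs0.le, ← Real.rpow_add hs0]
      congr 3
      ring
    have e2 : ENNReal.ofReal (s ^ (p - 1)) * v s = ENNReal.ofReal (s ^ (-1 : ℝ)) * w := by
      rw [hw, ← mul_assoc, ← ENNReal.ofReal_mul (by positivity), ← Real.rpow_add hs0]
      congr 3
      ring
    rw [e1, e2]
    exact mul_le_mul_right h2 _
  refine (setLIntegral_mono' measurableSet_Ioi h1).trans ?_
  rw [lintegral_const_mul' _ _ hC]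
  calc C * _ ≤ C * 1 := mul_le_mul_right hv2 _
    _ = C := mul_one _

theorem interp {gam q q0 q1 : ℝ} (hg : 0 < gam) (hq0 : 1 < q0) (h0 : 1 ≤ q0 - gam) (h0q : q0 < q)
    (hq1 : q < q1) :
    ∃ C : ℝ≥0∞, C ≠ ∞ ∧ ∀ {Z : Type*} [MeasurableSpace Z] {nu : Measure Z} [SFinite nu]
      {u : ℝ → Z → ℝ≥0∞}, Measurable (Function.uncurry u) → ∀ {v : ℝ → ℝ≥0∞} {C0 C1 : ℝ≥0∞},
      C0 ≠ ∞ → C1 ≠ ∞ →
      (∀ s, 0 < s → ∫⁻ z, u s z ^ q0 ∂nu ≤ C0 * v s ^ (q0 - gam)) →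
      (∀ s, 0 < s → ∫⁻ z, u s z ^ q1 ∂nu ≤ C1 * v s ^ (q1 - gam)) →
      (∀ s, 0 < s → ENNReal.ofReal (s ^ (q / (q - gam))) * v s ≤ 1) →
      (∫⁻ s in Ioi 0, ENNReal.ofReal (s ^ (q / (q - gam) - 1)) * v s ≤ 1) →
      ∫⁻ z, (∫⁻ s in Ioi 0, u s z) ^ q ∂nu ≤ C * (C0 + C1) := by
  have hq : 0 < q := by linarith
  have hqg : 0 < q - gam := by linarith
  set p : ℝ := q / (q - gam) with hp
  have hp0 : 0 < p := by positivity
  obtain ⟨C, hC, hpt⟩ := pointwise (kap := p * gam) (by positivity) hq0 h0q hq1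
  refine ⟨C, hC, ?_⟩
  intro Z _ nu _ u hu v C0 C1 hC0 hC1 h1 h2 h3 h4
  have ea : ∀ r : ℝ, r - 1 - p * gam * (1 - r / q) = p * (r - gam) - 1 := by
    intro r
    rw [hp]
    field_simp
    ring
  simp only [ea] at hpt
  have hmz : ∀ z, Measurable fun s => u s z := fun z => hu.comp (measurable_id.prodMk measurable_const)
  have hm : ∀ r : ℝ, Measurable (Function.uncurry fun (z : Z) (s : ℝ) =>
      ENNReal.ofReal (s ^ (p * (r - gam) - 1)) * u s z ^ r) := by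
    intro r
    refine Measurable.mul ?_ ?_
    · exact (measurable_snd.pow_const _).ennreal_ofReal
    · exact (hu.comp measurable_swap).pow_const r
  calc ∫⁻ z, (∫⁻ s in Ioi 0, u s z) ^ q ∂nu
      ≤ ∫⁻ z, C * ((∫⁻ s in Ioi 0, ENNReal.ofReal (s ^ (p * (q0 - gam) - 1)) * u s z ^ q0) +
          ∫⁻ s in Ioi 0, ENNReal.ofReal (s ^ (p * (q1 - gam) - 1)) * u s z ^ q1) ∂nu :=
        lintegral_mono fun z => hpt (fun s => u s z) (hmz z)
    _ = C * ((∫⁻ z, (∫⁻ s in Ioi 0, ENNReal.ofReal (s ^ (p * (q0 - gam) - 1)) * u s z ^ q0) ∂nu) +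
          ∫⁻ z, (∫⁻ s in Ioi 0, ENNReal.ofReal (s ^ (p * (q1 - gam) - 1)) * u s z ^ q1) ∂nu) := by
        rw [lintegral_const_mul' _ _ hC, lintegral_add_left]
        exact (hm q0).lintegral_prod_right'
    _ ≤ C * (C0 + C1) := by
        refine mul_le_mul_right (add_le_add ?_ ?_) _
        · exact interp_one hu h0 hC0 h1 h3 h4
        · exact interp_one hu (by linarith) hC1 h2 h3 h4

end Pool.Agent.TH297.QC
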