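import Pool.Agent.TH297.QC.Interp

/-!
# The extension operator on quasi-concave functions
-/

set_option autoImplicit false

namespace Pool.Agent.TH297.QC

open MeasureTheory Set Filter Topology Complex
open scoped ENNReal RealInnerProductSpace
open Pool.Agent.Helper160.MF

variable {m : ℕ}

/-- the character -/
noncomputable def chz (z : Eu m × ℝ) (ξ : Eu m) : ℂ :=
  cexp ((2 * Real.pi * (⟪ξ, z.1⟫ + z.2 * ‖ξ‖ ^ 2) : ℝ) * I)

theorem chz_norm (z : Eu m × ℝ) (ξ : Eu m) : ‖chz z ξ‖ = 1 := Complex.norm_exp_ofReal_mul_I _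

theorem chz_cont : Continuous fun p : (Eu m × ℝ) × Eu m => chz p.1 p.2 := by
  unfold chz
  fun_prop

theorem lt_meas {g : Eu m → ℝ} (hg : Measurable g) :
    MeasurableSet {p : ℝ × Eu m | p.1 < g p.2} :=
  measurableSet_lt measurable_fst (hg.comp measurable_snd)

theorem u_meas {g : Eu m → ℝ} (hg : Measurable g) :
    Measurable (Function.uncurry fun (s : ℝ) (z : Eu m × ℝ) =>
      ‖ext (ind {ξ | s < g ξ}) z.1 z.2‖ₑ) := by
  have h : StronglyMeasurable (Function.uncurry fun (p : ℝ × (Eu m × ℝ)) (ξ : Eu m) =>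
      chz p.2 ξ * ind {ξ | p.1 < g ξ} ξ) := by
    refine StronglyMeasurable.mul ?_ ?_
    · exact (chz_cont.comp ((continuous_snd.comp continuous_fst).prodMk continuous_snd)
        ).stronglyMeasurable
    · have h1 : MeasurableSet {p : (ℝ × (Eu m × ℝ)) × Eu m | p.1.1 < g p.2} :=
        measurableSet_lt (measurable_fst.comp measurable_fst) (hg.comp measurable_snd)
      have h2 : (fun x : (ℝ × (Eu m × ℝ)) × Eu m => ind {ξ | x.1.1 < g ξ} x.2)
          = {p : (ℝ × (Eu m × ℝ)) × Eu m | p.1.1 < g p.2}.indicator fun _ => (1 : ℂ) := by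
        funext x
        unfold ind
        by_cases hx : x.1.1 < g x.2
        · rw [indicator_of_mem (show x.2 ∈ {ξ | x.1.1 < g ξ} from hx),
            indicator_of_mem (show x ∈ {p : (ℝ × (Eu m × ℝ)) × Eu m | p.1.1 < g p.2} from hx)]
        · rw [indicator_of_notMem (show x.2 ∉ {ξ | x.1.1 < g ξ} from hx),
            indicator_of_notMem (show x ∉ {p : (ℝ × (Eu m × ℝ)) × Eu m | p.1.1 < g p.2} from hx)]
      exact (h2 ▸ (measurable_const.indicator h1).stronglyMeasurable :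
        StronglyMeasurable fun x : (ℝ × (Eu m × ℝ)) × Eu m => ind {ξ | x.1.1 < g ξ} x.2)
  exact (h.integral_prod_right.measurable).enorm

theorem layer {g : Eu m → ℝ} (hg : Measurable g) (h0 : ∀ ξ, 0 ≤ g ξ) (hi : Integrable g)
    (z : Eu m × ℝ) :
    ‖ext (fun ξ => (g ξ : ℂ)) z.1 z.2‖ₑ ≤
      ∫⁻ s in Ioi 0, ‖ext (ind {ξ | s < g ξ}) z.1 z.2‖ₑ := by
  set F : Eu m → ℝ → ℂ := fun ξ s => chz z ξ * ind {ξ | s < g ξ} ξ with hF
  have hFm : StronglyMeasurable (Function.uncurry F) := by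
    refine StronglyMeasurable.mul ?_ ?_
    · exact (chz_cont.comp (continuous_const.prodMk continuous_fst)).stronglyMeasurable
    · have h1 : MeasurableSet {p : Eu m × ℝ | p.2 < g p.1} :=
        measurableSet_lt measurable_snd (hg.comp measurable_fst)
      have h2 : (fun x : Eu m × ℝ => ind {ξ | x.2 < g ξ} x.1)
          = {p : Eu m × ℝ | p.2 < g p.1}.indicator fun _ => (1 : ℂ) := by
        funext x
        unfold ind
        by_cases hx : x.2 < g x.1
        · rw [indicator_of_mem (show x.1 ∈ {ξ | x.2 < g ξ} from hx),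
            indicator_of_mem (show x ∈ {p : Eu m × ℝ | p.2 < g p.1} from hx)]
        · rw [indicator_of_notMem (show x.1 ∉ {ξ | x.2 < g ξ} from hx),
            indicator_of_notMem (show x ∉ {p : Eu m × ℝ | p.2 < g p.1} from hx)]
      exact (h2 ▸ (measurable_const.indicator h1).stronglyMeasurable :
        StronglyMeasurable fun x : Eu m × ℝ => ind {ξ | x.2 < g ξ} x.1)
  have hFn : ∀ ξ s, ‖F ξ s‖ₑ = (Iio (g ξ)).indicator (fun _ => (1 : ℝ≥0∞)) s := by
    intro ξ s
    rw [hF]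
    simp only
    rw [enorm_mul, ← ofReal_norm, chz_norm, ENNReal.ofReal_one, one_mul]
    unfold ind
    by_cases hx : s < g ξ
    · rw [indicator_of_mem (show ξ ∈ {ξ | s < g ξ} from hx), indicator_of_mem (show s ∈ Iio (g ξ) from hx)]
      simp
    · rw [indicator_of_notMem (show ξ ∉ {ξ | s < g ξ} from hx),
        indicator_of_notMem (show s ∉ Iio (g ξ) from hx)]
      simp
  have hin : ∀ ξ, ∫⁻ s in Ioi (0 : ℝ), ‖F ξ s‖ₑ = ENNReal.ofReal (g ξ) := by
    intro ξ
    simp_rw [hFn]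
    rw [lintegral_indicator_const measurableSet_Iio, one_mul,
      Measure.restrict_apply measurableSet_Iio, inter_comm, Ioi_inter_Iio, Real.volume_Ioo, sub_zero]
  have hFi : Integrable (Function.uncurry F) (volume.prod (volume.restrict (Ioi (0 : ℝ)))) := by
    refine ⟨hFm.aestronglyMeasurable, ?_⟩
    rw [hasFiniteIntegral_iff_enorm, lintegral_prod _ hFm.enorm.aemeasurable]
    simp only [Function.uncurry_apply_pair, hin]
    exact lt_of_le_of_lt (lintegral_mono fun ξ => by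
      rw [← Real.enorm_of_nonneg (h0 ξ)]) hi.2
  have e1 : ext (fun ξ => (g ξ : ℂ)) z.1 z.2 = ∫ ξ, ∫ s in Ioi (0 : ℝ), F ξ s := by
    unfold ext
    congr 1
    funext ξ
    have h1 : ∫ s in Ioi (0 : ℝ), F ξ s = chz z ξ * (g ξ : ℂ) := by
      have h2 : (fun s => F ξ s) = fun s => chz z ξ * (Iio (g ξ)).indicator (fun _ => (1 : ℂ)) s := by
        funext s
        rw [hF]
        simp only
        congr 1
      rw [h2, integral_const_mul, integral_indicator_const _ measurableSet_Iio,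
        Measure.real, Measure.restrict_apply measurableSet_Iio, inter_comm, Ioi_inter_Iio,
        Real.volume_Ioo, sub_zero, ENNReal.toReal_ofReal (h0 ξ)]
      simp
    rw [h1]
    rfl
  rw [e1, integral_integral_swap hFi]
  exact enorm_integral_le_lintegral_enorm _

theorem ext_ae_set {A B : Set (Eu m)} (h : A =ᵐ[volume] B) (x : Eu m) (t : ℝ) :
    ext (ind A) x t = ext (ind B) x t := by
  refine ext_congr ?_ x t
  filter_upwards [h] with ξ hξ
  have h2 : ξ ∈ A ↔ ξ ∈ B := iff_of_eq hξ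
  unfold ind
  by_cases hx : ξ ∈ A
  · rw [indicator_of_mem hx, indicator_of_mem (h2.1 hx)]
  · rw [indicator_of_notMem hx, indicator_of_notMem (fun h => hx (h2.2 h))]

/-- normalised form -/
theorem main_norm (hm : 1 ≤ m) {q : ℝ} (hq : 2 + 2 / (m : ℝ) < q) (N : ℕ) :
    ∃ C : ℝ≥0∞, C ≠ ∞ ∧ ∀ f : Eu m → ℝ, (∀ ξ, 0 ≤ f ξ) → Integrable f →
      (∀ s, 0 < s → UC N {ξ | s < f ξ}) →
      ∫⁻ ξ, ‖f ξ‖ₑ ^ (q / (q - (1 + 2 / (m : ℝ)))) ≤ 1 →
      ∫⁻ z : Eu m × ℝ, ‖ext (fun ξ => (f ξ : ℂ)) z.1 z.2‖ₑ ^ q ≤ C := by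
  have hm0 : (0 : ℝ) < m := by exact_mod_cast hm
  set gam : ℝ := 1 + 2 / (m : ℝ) with hgam
  have hg0 : 0 < gam := by positivity
  have hqg : 0 < q - gam := by
    rw [hgam]; linarith
  set p : ℝ := q / (q - gam) with hp
  have hp1 : 1 ≤ p := by
    rw [hp, le_div_iff₀ hqg]
    linarith
  have hp0 : 0 < p := by linarith
  set q0 : ℝ := (2 + 2 / (m : ℝ) + q) / 2 with hq0
  have h2m : 0 < 2 / (m : ℝ) := by positivity
  have hq0a : 2 + 2 / (m : ℝ) < q0 := by rw [hq0]; linarith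
  have hq0b : q0 < q := by rw [hq0]; linarith
  have hq1 : q < 2 * q := by linarith
  obtain ⟨C, hC, H⟩ := interp (gam := gam) (q := q) (q0 := q0) (q1 := 2 * q) hg0 (by linarith)
    (by rw [hgam]; linarith) hq0b hq1
  refine ⟨C * (ENNReal.ofReal (q0 * (CU m N / (q0 - (2 + 2 / (m : ℝ))))) +
    ENNReal.ofReal (2 * q * (CU m N / (2 * q - (2 + 2 / (m : ℝ)))))),
    ENNReal.mul_ne_top hC (ENNReal.add_ne_top.2 ⟨ENNReal.ofReal_ne_top, ENNReal.ofReal_ne_top⟩),
    ?_⟩
  intro f hf0 hfi hfU hfp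
  -- measurable version
  obtain ⟨g, hgm, hg0', hfg⟩ : ∃ g : Eu m → ℝ, Measurable g ∧ (∀ ξ, 0 ≤ g ξ) ∧ f =ᵐ[volume] g := by
    refine ⟨fun ξ => max (hfi.1.mk f ξ) 0, ?_, fun ξ => le_max_right _ _, ?_⟩
    · exact (hfi.1.stronglyMeasurable_mk.measurable).max measurable_const
    · filter_upwards [hfi.1.ae_eq_mk] with ξ hξ
      rw [← hξ, max_eq_left (hf0 ξ)]
  have hgi : Integrable g := hfi.congr hfg
  have hset : ∀ s, {ξ | s < g ξ} =ᵐ[volume] {ξ | s < f ξ} := by
    intro s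
    filter_upwards [hfg] with ξ hξ
    apply propext
    change s < g ξ ↔ s < f ξ
    rw [hξ]
  have hgp : ∫⁻ ξ, ENNReal.ofReal (g ξ ^ p) ≤ 1 := by
    refine le_trans (le_of_eq ?_) hfp
    refine lintegral_congr_ae ?_
    filter_upwards [hfg] with ξ hξ
    rw [← hξ, ← ENNReal.ofReal_rpow_of_nonneg (hf0 ξ) hp0.le, Real.enorm_of_nonneg (hf0 ξ)]
  have hv1 : ∀ s, 0 < s → ENNReal.ofReal (s ^ p) * volume {ξ | s < g ξ} ≤ 1 := by
    intro s hs
    have h1 := mul_meas_ge_le_lintegral (μ := (volume : Measure (Eu m)))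
      (f := fun ξ => ENNReal.ofReal (g ξ ^ p)) ((hgm.pow_const p).ennreal_ofReal)
      (ENNReal.ofReal (s ^ p))
    refine (le_trans (mul_le_mul_right (measure_mono ?_) _) h1).trans hgp
    intro ξ hξ
    have h2 : s < g ξ := hξ
    exact ENNReal.ofReal_le_ofReal (Real.rpow_le_rpow hs.le h2.le hp0.le)
  have hfin : ∀ s, 0 < s → volume {ξ | s < g ξ} ≠ ∞ := by
    intro s hs htop
    have h1 := hv1 s hs
    rw [htop, ENNReal.mul_top] at h1
    · simp at h1
    · rw [Ne, ENNReal.ofReal_eq_zero, not_le]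
      positivity
  have hv2 : ∫⁻ s in Ioi 0, ENNReal.ofReal (s ^ (p - 1)) * volume {ξ | s < g ξ} ≤ 1 := by
    have h1 := lintegral_rpow_eq_lintegral_meas_lt_mul (μ := (volume : Measure (Eu m)))
      (Eventually.of_forall hg0') hgm.aemeasurable hp0
    rw [h1] at hgp
    have h2 : (1 : ℝ≥0∞) ≤ ENNReal.ofReal p := by
      rw [← ENNReal.ofReal_one]
      exact ENNReal.ofReal_le_ofReal hp1
    refine le_trans ?_ hgp
    refine le_trans ?_ (le_mul_of_one_le_left zero_le h2)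
    refine lintegral_mono fun s => ?_
    rw [mul_comm]
  have hstr : ∀ r : ℝ, 2 + 2 / (m : ℝ) < r → ∀ s, 0 < s →
      ∫⁻ z : Eu m × ℝ, ‖ext (ind {ξ | s < g ξ}) z.1 z.2‖ₑ ^ r ≤
        ENNReal.ofReal (r * (CU m N / (r - (2 + 2 / (m : ℝ))))) *
          volume {ξ | s < g ξ} ^ (r - gam) := by
    intro r hr s hs
    simp_rw [ext_ae_set (hset s)]
    rw [measure_congr (hset s)]
    exact strong_union hm N hr (hfU s hs) (by rw [← measure_congr (hset s)]; exact hfin s hs)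
  have hmain := H (Z := Eu m × ℝ) (nu := volume)
    (u := fun s z => ‖ext (ind {ξ | s < g ξ}) z.1 z.2‖ₑ) (u_meas hgm)
    (v := fun s => volume {ξ | s < g ξ}) ENNReal.ofReal_ne_top ENNReal.ofReal_ne_top
    (hstr q0 hq0a) (hstr (2 * q) (by linarith)) hv1 hv2
  refine le_trans (lintegral_mono fun z => ?_) hmain
  have hc : ext (fun ξ => (f ξ : ℂ)) z.1 z.2 = ext (fun ξ => (g ξ : ℂ)) z.1 z.2 := by
    refine ext_congr ?_ _ _
    filter_upwards [hfg] with ξ hξ
    rw [hξ]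
  rw [hc]
  exact ENNReal.rpow_le_rpow (layer hgm hg0' hgi z) (by linarith)

end Pool.Agent.TH297.QC
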