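import Pool.Agent.TH297.QC.Strong

/-!
# A continuous form of Marcinkiewicz interpolation
-/

set_option autoImplicit false

namespace Pool.Agent.TH297.QC

open MeasureTheory Set Filter Topology
open scoped ENNReal

theorem holder_piece {u : ℝ → ℝ≥0∞} (hu : Measurable u) {S : Set ℝ} (hS : MeasurableSet S)
    (hS0 : S ⊆ Ioi 0) {r : ℝ} (hr : 1 < r) (b : ℝ) :
    ∫⁻ s in S, u s ≤ (∫⁻ s in Ioi 0, ENNReal.ofReal (s ^ (b * (r - 1))) * u s ^ r) ^ (1 / r) *
      (∫⁻ s in S, ENNReal.ofReal (s ^ (-b))) ^ (1 - 1 / r) := by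
  have hr0 : 0 < r := by linarith
  have hpq : r.HolderConjugate (r / (r - 1)) := Real.HolderConjugate.conjExponent hr
  have hmp : ∀ c : ℝ, Measurable fun s : ℝ => ENNReal.ofReal (s ^ c) := fun c =>
    (measurable_id.pow_const c).ennreal_ofReal
  have h := ENNReal.lintegral_mul_le_Lp_mul_Lq (μ := volume.restrict S) hpq
    (f := fun s => ENNReal.ofReal (s ^ (b * (1 - 1 / r))) * u s)
    (g := fun s => ENNReal.ofReal (s ^ (-(b * (1 - 1 / r)))))
    ((hmp _).mul hu).aemeasurable (hmp _).aemeasurable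
  have e1 : ∫⁻ s in S, u s = ∫⁻ s in S, ((fun s => ENNReal.ofReal (s ^ (b * (1 - 1 / r))) * u s) *
      fun s => ENNReal.ofReal (s ^ (-(b * (1 - 1 / r))))) s := by
    refine setLIntegral_congr_fun hS fun s hs => ?_
    have hs0 : (0 : ℝ) < s := hS0 hs
    simp only [Pi.mul_apply]
    rw [mul_right_comm, ← ENNReal.ofReal_mul (by positivity), ← Real.rpow_add hs0,
      add_neg_cancel, Real.rpow_zero, ENNReal.ofReal_one, one_mul]
  rw [e1]
  refine h.trans ?_
  have e2 : ∫⁻ s in S, (ENNReal.ofReal (s ^ (b * (1 - 1 / r))) * u s) ^ r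
      = ∫⁻ s in S, ENNReal.ofReal (s ^ (b * (r - 1))) * u s ^ r := by
    refine setLIntegral_congr_fun hS fun s hs => ?_
    have hs0 : (0 : ℝ) < s := hS0 hs
    rw [ENNReal.mul_rpow_of_nonneg _ _ hr0.le, ENNReal.ofReal_rpow_of_nonneg (by positivity) hr0.le,
      ← Real.rpow_mul hs0.le]
    congr 3
    field_simp
  have e3 : ∫⁻ s in S, ENNReal.ofReal (s ^ (-(b * (1 - 1 / r)))) ^ (r / (r - 1))
      = ∫⁻ s in S, ENNReal.ofReal (s ^ (-b)) := by
    refine setLIntegral_congr_fun hS fun s hs => ?_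
    have hs0 : (0 : ℝ) < s := hS0 hs
    have hr1 : 0 < r - 1 := by linarith
    rw [ENNReal.ofReal_rpow_of_nonneg (by positivity) (by positivity),
      ← Real.rpow_mul hs0.le]
    congr 2
    field_simp
  rw [e2, e3]
  have e4 : 1 / (r / (r - 1)) = 1 - 1 / r := by
    have hr1 : 0 < r - 1 := by linarith
    field_simp
  rw [e4]
  refine mul_le_mul_left ?_ _
  exact ENNReal.rpow_le_rpow (lintegral_mono_set hS0) (by positivity)

/-- The pointwise inequality. -/
theorem pointwise {kap q q0 q1 : ℝ} (hk : 0 < kap) (hq0 : 1 < q0) (h0q : q0 < q) (hq1 : q < q1) :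
    ∃ C : ℝ≥0∞, C ≠ ∞ ∧ ∀ u : ℝ → ℝ≥0∞, Measurable u →
      (∫⁻ s in Ioi 0, u s) ^ q ≤ C *
        ((∫⁻ s in Ioi 0, ENNReal.ofReal (s ^ (q0 - 1 - kap * (1 - q0 / q))) * u s ^ q0) +
          ∫⁻ s in Ioi 0, ENNReal.ofReal (s ^ (q1 - 1 - kap * (1 - q1 / q))) * u s ^ q1) := by
  have hq : 0 < q := by linarith
  have h01 : 0 < q0 - 1 := by linarith
  have h11 : 0 < q1 - 1 := by linarith
  set b0 : ℝ := 1 - kap * (1 - q0 / q) / (q0 - 1) with hb0
  set b1 : ℝ := 1 - kap * (1 - q1 / q) / (q1 - 1) with hb1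
  have d0 : 0 < 1 - q0 / q := by rw [sub_pos, div_lt_one hq]; exact h0q
  have d1 : 1 - q1 / q < 0 := by rw [sub_neg, one_lt_div hq]; exact hq1
  have hb0' : b0 < 1 := by
    have : 0 < kap * (1 - q0 / q) / (q0 - 1) := by positivity
    rw [hb0]; linarith
  have hb1' : 1 < b1 := by
    have : kap * (1 - q1 / q) / (q1 - 1) < 0 :=
      div_neg_of_neg_of_pos (mul_neg_of_pos_of_neg hk d1) h11
    rw [hb1]; linarith
  have ea0 : b0 * (q0 - 1) = q0 - 1 - kap * (1 - q0 / q) := by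
    rw [hb0]
    field_simp
  have ea1 : b1 * (q1 - 1) = q1 - 1 - kap * (1 - q1 / q) := by
    rw [hb1]
    field_simp
  set c0 : ℝ := (1 / (1 - b0)) ^ (1 - 1 / q0) with hc0
  set c1 : ℝ := (1 / (b1 - 1)) ^ (1 - 1 / q1) with hc1
  have hc0' : 0 < c0 := Real.rpow_pos_of_pos (by
    have : 0 < 1 - b0 := by linarith
    positivity) _
  have hc1' : 0 < c1 := Real.rpow_pos_of_pos (by
    have : 0 < b1 - 1 := by linarith
    positivity) _
  refine ⟨ENNReal.ofReal ((c0 + c1) ^ q), ENNReal.ofReal_ne_top, fun u hu => ?_⟩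
  rw [← ea0, ← ea1]
  set S0 : ℝ≥0∞ := ∫⁻ s in Ioi 0, ENNReal.ofReal (s ^ (b0 * (q0 - 1))) * u s ^ q0 with hS0
  set S1 : ℝ≥0∞ := ∫⁻ s in Ioi 0, ENNReal.ofReal (s ^ (b1 * (q1 - 1))) * u s ^ q1 with hS1
  have hC0 : ENNReal.ofReal ((c0 + c1) ^ q) ≠ 0 := by
    rw [Ne, ENNReal.ofReal_eq_zero, not_le]
    positivity
  rcases eq_or_ne (S0 + S1) ∞ with htop | htop
  · rw [htop, ENNReal.mul_top hC0]
    exact le_top
  rcases eq_or_ne (S0 + S1) 0 with hz | hz
  · have h0 : S0 = 0 := (add_eq_zero.1 hz).1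
    have hmp : ∀ c : ℝ, Measurable fun s : ℝ => ENNReal.ofReal (s ^ c) := fun c =>
      (measurable_id.pow_const c).ennreal_ofReal
    have hmm : Measurable fun s : ℝ => ENNReal.ofReal (s ^ (b0 * (q0 - 1))) * u s ^ q0 :=
      (hmp _).mul (hu.pow_const _)
    rw [hS0, lintegral_eq_zero_iff hmm] at h0
    have h1 : ∀ᵐ s ∂(volume.restrict (Ioi (0 : ℝ))), u s = 0 := by
      filter_upwards [h0, ae_restrict_mem measurableSet_Ioi] with s hs hs0
      have hs0' : (0 : ℝ) < s := hs0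
      simp only [Pi.zero_apply] at hs
      rcases mul_eq_zero.1 hs with h | h
      · rw [ENNReal.ofReal_eq_zero] at h
        exact absurd h (not_le.2 (Real.rpow_pos_of_pos hs0' _))
      · exact (ENNReal.rpow_eq_zero_iff_of_pos (by linarith)).1 h
    have h2 : ∫⁻ s in Ioi (0 : ℝ), u s = 0 := by
      rw [lintegral_eq_zero_iff hu]
      exact h1
    rw [h2, ENNReal.zero_rpow_of_pos hq]
    exact zero_le
  set sg : ℝ := (S0 + S1).toReal with hsg
  have hsg0 : 0 < sg := ENNReal.toReal_pos hz htop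
  have hSe : S0 + S1 = ENNReal.ofReal sg := (ENNReal.ofReal_toReal htop).symm
  set s0 : ℝ := sg ^ (-(1 / kap)) with hs0
  have hs0' : 0 < s0 := Real.rpow_pos_of_pos hsg0 _
  -- the two pieces
  have hp0 : ∫⁻ s in Ioc 0 s0, u s ≤ ENNReal.ofReal (c0 * sg ^ (1 / q)) := by
    refine (holder_piece hu measurableSet_Ioc Ioc_subset_Ioi_self hq0 b0).trans ?_
    rw [lint_low hb0' hs0'.le]
    have h1 : S0 ^ (1 / q0) ≤ ENNReal.ofReal (sg ^ (1 / q0)) := by
      rw [← ENNReal.ofReal_rpow_of_nonneg hsg0.le (by positivity), ← hSe]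
      exact ENNReal.rpow_le_rpow le_self_add (by positivity)
    have h1b : 0 < 1 - b0 := by linarith
    have hq0' : 0 ≤ 1 - 1 / q0 := by
      rw [sub_nonneg, div_le_one (by linarith)]
      exact hq0.le
    refine (mul_le_mul_left h1 _).trans (le_of_eq ?_)
    rw [ENNReal.ofReal_rpow_of_nonneg (by positivity) hq0', ← ENNReal.ofReal_mul (by positivity)]
    congr 1
    rw [Real.div_rpow (by positivity) h1b.le, hc0, Real.div_rpow zero_le_one h1b.le,
      Real.one_rpow, ← Real.rpow_mul hs0'.le, hs0, ← Real.rpow_mul hsg0.le]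
    have e : sg ^ (1 / q0) * sg ^ (-(1 / kap) * ((1 - b0) * (1 - 1 / q0))) = sg ^ (1 / q) := by
      rw [← Real.rpow_add hsg0]
      congr 1
      rw [hb0]
      have : q0 ≠ 0 := by linarith
      field_simp
      ring
    rw [mul_div_assoc', e]
    ring
  have hp1 : ∫⁻ s in Ioi s0, u s ≤ ENNReal.ofReal (c1 * sg ^ (1 / q)) := by
    have hq1'' : 1 < q1 := by linarith
    have hq1p : 0 < q1 := by linarith
    refine (holder_piece hu measurableSet_Ioi (Ioi_subset_Ioi hs0'.le) hq1'' b1).trans ?_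
    rw [lint_high hb1' hs0']
    have h1 : S1 ^ (1 / q1) ≤ ENNReal.ofReal (sg ^ (1 / q1)) := by
      rw [← ENNReal.ofReal_rpow_of_nonneg hsg0.le (by positivity), ← hSe]
      exact ENNReal.rpow_le_rpow le_add_self (by positivity)
    have h1b : 0 < b1 - 1 := by linarith
    have hq1' : 0 ≤ 1 - 1 / q1 := by
      rw [sub_nonneg, div_le_one (by linarith)]
      exact hq1''.le
    refine (mul_le_mul_left h1 _).trans (le_of_eq ?_)
    rw [ENNReal.ofReal_rpow_of_nonneg (by positivity) hq1', ← ENNReal.ofReal_mul (by positivity)]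
    congr 1
    rw [Real.div_rpow (by positivity) h1b.le, hc1, Real.div_rpow zero_le_one h1b.le,
      Real.one_rpow, ← Real.rpow_mul hs0'.le, hs0, ← Real.rpow_mul hsg0.le]
    have e : sg ^ (1 / q1) * sg ^ (-(1 / kap) * ((1 - b1) * (1 - 1 / q1))) = sg ^ (1 / q) := by
      rw [← Real.rpow_add hsg0]
      congr 1
      rw [hb1]
      have : q1 ≠ 0 := by linarith
      field_simp
      ring
    rw [mul_div_assoc', e]
    ring
  have hsum : ∫⁻ s in Ioi (0 : ℝ), u s ≤ ENNReal.ofReal ((c0 + c1) * sg ^ (1 / q)) := by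
    rw [← Ioc_union_Ioi_eq_Ioi hs0'.le]
    refine (lintegral_union_le _ _ _).trans ((add_le_add hp0 hp1).trans (le_of_eq ?_))
    rw [← ENNReal.ofReal_add (by positivity) (by positivity)]
    congr 1
    ring
  refine (ENNReal.rpow_le_rpow hsum hq.le).trans (le_of_eq ?_)
  rw [ENNReal.ofReal_rpow_of_nonneg (by positivity) hq.le, Real.mul_rpow (by positivity)
    (by positivity), ← Real.rpow_mul hsg0.le, one_div_mul_cancel hq.ne', Real.rpow_one,
    ENNReal.ofReal_mul (by positivity), hSe]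

end Pool.Agent.TH297.QC
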