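import Pool.Agent.TH297.QC.Four

/-!
# Weak type bound for the extension operator from `L¹` and `L²` bounds on pieces of the transform
-/

set_option autoImplicit false

namespace Pool.Agent.TH297.QC

open MeasureTheory Set Filter Topology Complex
open scoped Pointwise ENNReal FourierTransform RealInnerProductSpace
open Pool.Agent.Helper160.MF

variable {m : ℕ}

/-- the piece of the regularised extension over the region `S` -/
noncomputable def pc (ε t : ℝ) (f : Eu m → ℂ) (S : Set (Eu m)) (x : Eu m) : ℂ :=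
  ∫ z, kr ε t (x - z) * S.indicator (Fi f) z

theorem Fi_ind_int {f : Eu m → ℂ} (hf : Integrable f) {S : Set (Eu m)} (hS : MeasurableSet S)
    (hvol : volume S ≠ ∞) : Integrable (S.indicator (Fi f)) := by
  rw [integrable_indicator_iff hS]
  refine Integrable.mono' (g := fun _ => ∫ ξ, ‖f ξ‖) ?_
    ((Fi_cont hf).aestronglyMeasurable.restrict) (Eventually.of_forall fun z => Fi_norm z)
  exact integrableOn_const hvol

theorem Fi_ind_L2 {f : Eu m → ℂ} (hf : Integrable f) {S : Set (Eu m)} (hS : MeasurableSet S)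
    (hvol : volume S ≠ ∞) : MemLp (S.indicator (Fi f)) 2 := by
  rw [memLp_two_iff_integrable_sq_norm (Fi_ind_int hf hS hvol).1]
  refine Integrable.mono' (g := S.indicator fun _ => (∫ ξ, ‖f ξ‖) ^ 2) ?_
    ((Fi_ind_int hf hS hvol).1.norm.pow 2) (Eventually.of_forall fun z => ?_)
  · rw [integrable_indicator_iff hS]
    exact integrableOn_const hvol
  · by_cases hz : z ∈ S
    · rw [indicator_of_mem hz, indicator_of_mem hz, Real.norm_of_nonneg (by positivity)]
      exact pow_le_pow_left₀ (norm_nonneg _) (Fi_norm z) 2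
    · rw [indicator_of_notMem hz, indicator_of_notMem hz]
      simp

theorem kr_L2 {ε : ℝ} (hε : 0 < ε) {t : ℝ} (ht : t ≠ 0) : MemLp (kr ε t : Eu m → ℂ) 2 := by
  rw [memLp_two_iff_integrable_sq_norm (kr_int hε t).1]
  refine Integrable.mono' (g := fun y => (2 * |t|) ^ (-((m : ℝ) / 2)) * ‖(kr ε t : Eu m → ℂ) y‖)
    ((kr_int hε t).norm.const_mul _) ((kr_int hε t).1.norm.pow 2)
    (Eventually.of_forall fun z => ?_)
  rw [Real.norm_of_nonneg (by positivity), pow_two]
  exact mul_le_mul_of_nonneg_right (kr_norm hε ht z) (norm_nonneg _)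

theorem pc_L2 {f : Eu m → ℂ} (hf : Integrable f) {S : Set (Eu m)} (hS : MeasurableSet S)
    (hvol : volume S ≠ ∞) {ε : ℝ} (hε : 0 < ε) {t : ℝ} (ht : t ≠ 0) :
    ∫⁻ x, ‖pc ε t f S x‖ₑ ^ 2 ≤ ∫⁻ z in S, ‖Fi f z‖ₑ ^ 2 := by
  have h := mult_bound m (kr ε t) (kr_int hε t) (kr_L2 hε ht) 1 zero_le_one (fun ξ => by
    have h1 := congrFun (fourier_kr (m := m) hε t) ξ
    rw [Real.fourier_eq'] at h1
    have h2 : ∫ x, Complex.exp (-(2 * Real.pi * inner ℝ x ξ : ℝ) * Complex.I) * kr ε t x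
        = gs ε t ξ := by
      rw [← h1]
      congr 1
      funext x
      rw [smul_eq_mul]
      congr 3
      push_cast
      ring
    rw [h2]
    exact gs_norm_le hε t ξ) (S.indicator (Fi f)) (Fi_ind_int hf hS hvol) (Fi_ind_L2 hf hS hvol)
  rw [one_pow, ENNReal.ofReal_one, one_mul] at h
  refine h.trans (le_of_eq ?_)
  rw [← lintegral_indicator hS]
  refine lintegral_congr fun z => ?_
  by_cases hz : z ∈ S
  · rw [indicator_of_mem hz, indicator_of_mem hz]
  · rw [indicator_of_notMem hz, indicator_of_notMem hz]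
    simp

theorem pc_sup {f : Eu m → ℂ} {S : Set (Eu m)} (hS : MeasurableSet S) {ε : ℝ} (hε : 0 < ε)
    {t : ℝ} (ht : t ≠ 0) {L : ℝ} (hL : 0 ≤ L)
    (hSL : ∫⁻ z in S, ‖Fi f z‖ₑ ≤ ENNReal.ofReal L) (x : Eu m) :
    ‖pc ε t f S x‖ ≤ (2 * |t|) ^ (-((m : ℝ) / 2)) * L := by
  have hA : (0 : ℝ) ≤ (2 * |t|) ^ (-((m : ℝ) / 2)) := by positivity
  have h1 : ‖pc ε t f S x‖ₑ ≤ ENNReal.ofReal ((2 * |t|) ^ (-((m : ℝ) / 2)) * L) := by
    unfold pc
    refine (enorm_integral_le_lintegral_enorm _).trans ?_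
    rw [ENNReal.ofReal_mul hA]
    refine le_trans ?_ (mul_le_mul_right hSL _)
    rw [← lintegral_const_mul' _ _ ENNReal.ofReal_ne_top, ← lintegral_indicator hS]
    refine lintegral_mono fun z => ?_
    by_cases hz : z ∈ S
    · simp only [indicator_of_mem hz, enorm_mul]
      refine mul_le_mul_left ?_ _
      rw [← ofReal_norm]
      exact ENNReal.ofReal_le_ofReal (kr_norm hε ht _)
    · simp only [indicator_of_notMem hz]
      simp
  rw [← ofReal_norm] at h1
  exact (ENNReal.ofReal_le_ofReal_iff (by positivity)).1 h1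

theorem exe_hasSum {f : Eu m → ℂ} (hf : Integrable f) {ε : ℝ} (hε : 0 < ε) (t : ℝ) (x : Eu m)
    {S : ℕ → Set (Eu m)} (hS : ∀ k, MeasurableSet (S k)) (hd : Pairwise (Function.onFun Disjoint S))
    (hu : ⋃ k, S k = univ) : HasSum (fun k => pc ε t f (S k) x) (exe ε f x t) := by
  have hint : Integrable (fun z => kr ε t (x - z) * Fi f z) := by
    refine Integrable.mono' (g := fun z => ‖kr ε t (x - z)‖ * ∫ ξ, ‖f ξ‖) ?_ ?_
      (Eventually.of_forall fun z => ?_)
    · exact ((kr_int hε t).comp_sub_left x).norm.mul_const _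
    · exact ((kr_cont ε t).comp (continuous_const.sub continuous_id)).mul (Fi_cont hf)
        |>.aestronglyMeasurable
    · rw [norm_mul]
      exact mul_le_mul_of_nonneg_left (Fi_norm z) (norm_nonneg _)
  have h := hasSum_integral_iUnion (μ := volume) (f := fun z => kr ε t (x - z) * Fi f z) hS hd
    (by rw [hu]; exact hint.integrableOn)
  rw [hu, Measure.restrict_univ, ← exe_eq hf hε t x] at h
  refine h.congr_fun ?_ |> fun h => h
  intro k
  unfold pc
  rw [← integral_indicator (hS k)]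
  congr 1
  funext z
  by_cases hz : z ∈ S k
  · rw [indicator_of_mem hz, indicator_of_mem hz]
  · rw [indicator_of_notMem hz, indicator_of_notMem hz, mul_zero]

theorem pc_meas {f : Eu m → ℂ} (hf : Integrable f) {S : Set (Eu m)} (hS : MeasurableSet S)
    (ε t : ℝ) : Measurable (pc ε t f S) := by
  unfold pc
  have h : StronglyMeasurable (Function.uncurry fun (x z : Eu m) =>
      kr ε t (x - z) * S.indicator (Fi f) z) := by
    refine StronglyMeasurable.mul ?_ ?_
    · exact ((kr_cont ε t).comp (continuous_fst.sub continuous_snd)).stronglyMeasurable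
    · exact ((Fi_cont hf).stronglyMeasurable.indicator hS).comp_measurable measurable_snd
  exact h.integral_prod_right.measurable

/-- Weak type bound at a fixed time. -/
theorem fixed_time {f : Eu m → ℂ} (hf : Integrable f) {S : ℕ → Set (Eu m)}
    (hS : ∀ k, MeasurableSet (S k)) (hd : Pairwise (Function.onFun Disjoint S))
    (hu : ⋃ k, S k = univ) (hvol : ∀ k, volume (S k) ≠ ∞) {L M c : ℕ → ℝ}
    (hL : ∀ k, 0 ≤ L k) (hM : ∀ k, 0 ≤ M k) (hc : ∀ k, 0 < c k) (hc1 : HasSum c 1)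
    (hSL : ∀ k, ∫⁻ z in S k, ‖Fi f z‖ₑ ≤ ENNReal.ofReal (L k))
    (hSM : ∀ k, ∫⁻ z in S k, ‖Fi f z‖ₑ ^ 2 ≤ ENNReal.ofReal (M k))
    {t : ℝ} (ht : t ≠ 0) {lam : ℝ} (hlam : 0 < lam) :
    volume {x : Eu m | lam < ‖ext f x t‖} ≤
      ∑' k, if c k * lam < (2 * |t|) ^ (-((m : ℝ) / 2)) * L k
        then ENNReal.ofReal (M k / (c k * lam) ^ 2) else 0 := by
  set B : ℝ≥0∞ := ∑' k, if c k * lam < (2 * |t|) ^ (-((m : ℝ) / 2)) * L k
        then ENNReal.ofReal (M k / (c k * lam) ^ 2) else 0 with hB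
  -- regularised version
  have hreg : ∀ ε : ℝ, 0 < ε → volume {x : Eu m | lam < ‖exe ε f x t‖} ≤ B := by
    intro ε hε
    have hsub : {x : Eu m | lam < ‖exe ε f x t‖} ⊆ ⋃ k, {x | c k * lam < ‖pc ε t f (S k) x‖} := by
      intro x hx
      by_contra hcon
      simp only [mem_iUnion, not_exists] at hcon
      have h1 : ∀ k, ‖pc ε t f (S k) x‖ ≤ c k * lam := fun k => not_lt.1 (hcon k)
      have h2 : HasSum (fun k => c k * lam) (1 * lam) := hc1.mul_right lam
      have h3 : ‖exe ε f x t‖ ≤ 1 * lam := by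
        rw [← (exe_hasSum hf hε t x hS hd hu).tsum_eq, ← h2.tsum_eq]
        have hs : Summable fun k => ‖pc ε t f (S k) x‖ :=
          Summable.of_nonneg_of_le (fun _ => norm_nonneg _) h1 h2.summable
        exact (norm_tsum_le_tsum_norm hs).trans (hs.tsum_le_tsum h1 h2.summable)
      rw [one_mul] at h3
      exact absurd hx (not_lt.2 h3)
    refine (measure_mono hsub).trans ((measure_iUnion_le _).trans (ENNReal.tsum_le_tsum fun k => ?_))
    have hck : 0 < c k * lam := mul_pos (hc k) hlam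
    split_ifs with hif
    · -- Chebyshev
      have h1 := mul_meas_ge_le_lintegral (μ := volume) ((pc_meas hf (hS k) ε t).enorm.pow_const 2)
        (ENNReal.ofReal ((c k * lam) ^ 2))
      have h2 : volume {x | c k * lam < ‖pc ε t f (S k) x‖} ≤
          volume {x | ENNReal.ofReal ((c k * lam) ^ 2) ≤ ‖pc ε t f (S k) x‖ₑ ^ 2} := by
        refine measure_mono fun x hx => ?_
        have hx' : c k * lam < ‖pc ε t f (S k) x‖ := hx
        change ENNReal.ofReal ((c k * lam) ^ 2) ≤ ‖pc ε t f (S k) x‖ₑ ^ 2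
        rw [ENNReal.ofReal_pow hck.le, ← ofReal_norm]
        exact pow_le_pow_left₀ (by positivity) (ENNReal.ofReal_le_ofReal hx'.le) 2
      have h3 : ENNReal.ofReal ((c k * lam) ^ 2) ≠ 0 := by
        rw [Ne, ENNReal.ofReal_eq_zero, not_le]
        positivity
      refine h2.trans ?_
      rw [ENNReal.ofReal_div_of_pos (by positivity)]
      rw [ENNReal.le_div_iff_mul_le (Or.inl h3) (Or.inl ENNReal.ofReal_ne_top), mul_comm]
      exact h1.trans ((pc_L2 hf (hS k) (hvol k) hε ht).trans (hSM k))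
    · have h1 : {x | c k * lam < ‖pc ε t f (S k) x‖} = ∅ := by
        ext x
        simp only [mem_empty_iff_false, iff_false]
        intro hx
        have hx' : c k * lam < ‖pc ε t f (S k) x‖ := hx
        exact hif (lt_of_lt_of_le hx' (pc_sup (hS k) hε ht (hL k) (hSL k) x))
      rw [h1, measure_empty]
  -- limit
  have hsub : {x : Eu m | lam < ‖ext f x t‖} ⊆
      ⋃ N : ℕ, ⋂ n ∈ Ici N, {x | lam < ‖exe (1 / ((n : ℝ) + 1)) f x t‖} := by
    intro x hx
    have hx' : lam < ‖ext f x t‖ := hx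
    have h1 := (exe_tendsto hf x t).norm.eventually_const_lt hx'
    obtain ⟨N, hN⟩ := eventually_atTop.1 h1
    exact mem_iUnion.2 ⟨N, mem_iInter₂.2 fun n hn => hN n hn⟩
  refine (measure_mono hsub).trans ?_
  have hmono : Monotone fun N : ℕ =>
      ⋂ n ∈ Ici N, {x | lam < ‖exe (1 / ((n : ℝ) + 1)) f x t‖} := by
    intro N N' hNN
    exact biInter_subset_biInter_left (Ici_subset_Ici.2 hNN)
  rw [hmono.measure_iUnion]
  refine iSup_le fun N => ?_
  refine (measure_mono (biInter_subset_of_mem (show N ∈ Ici N from self_mem_Ici))).trans ?_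
  exact hreg _ (by positivity)

theorem ext_cont {f : Eu m → ℂ} (hf : Integrable f) :
    Continuous fun p : Eu m × ℝ => ext f p.1 p.2 := by
  unfold ext
  refine continuous_of_dominated (bound := fun ξ => ‖f ξ‖) (fun p => ?_) (fun p => ?_) hf.norm
    (Eventually.of_forall fun ξ => ?_)
  · exact AEStronglyMeasurable.mul (Continuous.aestronglyMeasurable (by fun_prop)) hf.1
  · refine Eventually.of_forall fun ξ => ?_
    rw [norm_mul, Complex.norm_exp_ofReal_mul_I, one_mul]
  · fun_prop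

/-- the size of the set of times -/
theorem time_set (hm : 1 ≤ m) {a L : ℝ} (ha : 0 < a) (hL : 0 ≤ L) :
    volume {t : ℝ | t ≠ 0 ∧ a < (2 * |t|) ^ (-((m : ℝ) / 2)) * L} ≤
      ENNReal.ofReal ((L / a) ^ (2 / (m : ℝ))) := by
  have hm0 : (0 : ℝ) < m := by exact_mod_cast hm
  set R : ℝ := (L / a) ^ (2 / (m : ℝ)) with hR
  have hsub : {t : ℝ | t ≠ 0 ∧ a < (2 * |t|) ^ (-((m : ℝ) / 2)) * L} ⊆ Ioo (-(R / 2)) (R / 2) := by
    rintro t ⟨ht, h⟩
    have h0 : 0 < 2 * |t| := by positivity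
    rw [Real.rpow_neg h0.le, inv_mul_eq_div, lt_div_iff₀ (Real.rpow_pos_of_pos h0 _)] at h
    have h1 : (2 * |t|) ^ ((m : ℝ) / 2) < L / a := by
      rw [lt_div_iff₀ ha]
      linarith
    have h2 := Real.rpow_lt_rpow (Real.rpow_nonneg h0.le _) h1 (by positivity : 0 < 2 / (m : ℝ))
    rw [← Real.rpow_mul h0.le, show (m : ℝ) / 2 * (2 / m) = 1 by field_simp, Real.rpow_one] at h2
    rw [← hR] at h2
    have h3 : |t| < R / 2 := by linarith
    exact abs_lt.1 h3
  refine (measure_mono hsub).trans (le_of_eq ?_)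
  rw [Real.volume_Ioo]
  congr 1
  ring

/-- Weak type bound in space-time. -/
theorem space_time (hm : 1 ≤ m) {f : Eu m → ℂ} (hf : Integrable f) {S : ℕ → Set (Eu m)}
    (hS : ∀ k, MeasurableSet (S k)) (hd : Pairwise (Function.onFun Disjoint S))
    (hu : ⋃ k, S k = univ) (hvol : ∀ k, volume (S k) ≠ ∞) {L M c : ℕ → ℝ}
    (hL : ∀ k, 0 ≤ L k) (hM : ∀ k, 0 ≤ M k) (hc : ∀ k, 0 < c k) (hc1 : HasSum c 1)
    (hSL : ∀ k, ∫⁻ z in S k, ‖Fi f z‖ₑ ≤ ENNReal.ofReal (L k))
    (hSM : ∀ k, ∫⁻ z in S k, ‖Fi f z‖ₑ ^ 2 ≤ ENNReal.ofReal (M k))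
    {lam : ℝ} (hlam : 0 < lam) :
    volume {p : Eu m × ℝ | lam < ‖ext f p.1 p.2‖} ≤
      ∑' k, ENNReal.ofReal (M k / (c k * lam) ^ 2 * (L k / (c k * lam)) ^ (2 / (m : ℝ))) := by
  have hmeas : MeasurableSet {p : Eu m × ℝ | lam < ‖ext f p.1 p.2‖} :=
    measurableSet_lt measurable_const (ext_cont hf).norm.measurable
  rw [Measure.volume_eq_prod, Measure.prod_apply_symm hmeas]
  have hae : ∀ᵐ t : ℝ, volume ((fun x : Eu m => (x, t)) ⁻¹' {p : Eu m × ℝ | lam < ‖ext f p.1 p.2‖})
      ≤ ∑' k, {t : ℝ | t ≠ 0 ∧ c k * lam < (2 * |t|) ^ (-((m : ℝ) / 2)) * L k}.indicator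
        (fun _ => ENNReal.ofReal (M k / (c k * lam) ^ 2)) t := by
    have h0 : ∀ᵐ t : ℝ, t ≠ 0 := by
      rw [ae_iff]
      simp
    filter_upwards [h0] with t ht
    refine (fixed_time hf hS hd hu hvol hL hM hc hc1 hSL hSM ht hlam).trans ?_
    refine ENNReal.tsum_le_tsum fun k => ?_
    split_ifs with hif
    · have hmem : t ∈ {t : ℝ | t ≠ 0 ∧ c k * lam < (2 * |t|) ^ (-((m : ℝ) / 2)) * L k} := ⟨ht, hif⟩
      rw [indicator_of_mem hmem]
    · exact zero_le
  refine (lintegral_mono_ae hae).trans ?_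
  have hms : ∀ k, MeasurableSet {t : ℝ | t ≠ 0 ∧ c k * lam < (2 * |t|) ^ (-((m : ℝ) / 2)) * L k} := by
    intro k
    refine MeasurableSet.inter (measurableSet_singleton (0 : ℝ)).compl ?_
    exact measurableSet_lt measurable_const
      (((continuous_abs.measurable.const_mul 2).pow_const _).mul_const _)
  rw [lintegral_tsum fun k => (measurable_const.indicator (hms k)).aemeasurable]
  refine ENNReal.tsum_le_tsum fun k => ?_
  rw [lintegral_indicator (hms k), setLIntegral_const]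
  have hck : 0 < c k * lam := mul_pos (hc k) hlam
  have hMc : 0 ≤ M k / (c k * lam) ^ 2 := div_nonneg (hM k) (by positivity)
  rw [ENNReal.ofReal_mul hMc]
  exact mul_le_mul_right (time_set hm hck (hL k)) _

end Pool.Agent.TH297.QC
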