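import Pool.Agent.TH297.QC.Geo
import Pool.Agent.TH297.QC.Weak

/-!
# The endpoint weak type inequality for indicators of convex sets
-/

set_option autoImplicit false

namespace Pool.Agent.TH297.QC

open MeasureTheory Set Filter Topology Complex
open scoped Pointwise ENNReal FourierTransform RealInnerProductSpace
open Pool.Agent.Helper160.MF

variable {m : ℕ}

/-- indicator of a set, complex valued -/
noncomputable def ind (K : Set (Eu m)) (x : Eu m) : ℂ := K.indicator (fun _ => (1 : ℂ)) x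

theorem ind_int {K : Set (Eu m)} (hKm : MeasurableSet K) (hfin : volume K ≠ ∞) :
    Integrable (ind K) := by
  have : ind K = K.indicator (fun _ => (1 : ℂ)) := rfl
  rw [this, integrable_indicator_iff hKm]
  exact integrableOn_const hfin

theorem ind_L2 {K : Set (Eu m)} (hKm : MeasurableSet K) (hfin : volume K ≠ ∞) :
    MemLp (ind K) 2 := by
  have : ind K = K.indicator (fun _ => (1 : ℂ)) := rfl
  rw [this]
  exact memLp_indicator_const 2 hKm (1 : ℂ) (Or.inr hfin)

theorem ind_lint {K : Set (Eu m)} (hKm : MeasurableSet K) :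
    ∫⁻ x, ‖ind K x‖ₑ ^ 2 = volume K := by
  have : ∀ x, ‖ind K x‖ₑ ^ 2 = K.indicator (fun _ => (1 : ℝ≥0∞)) x := by
    intro x
    unfold ind
    by_cases hx : x ∈ K
    · simp [indicator_of_mem hx]
    · simp [indicator_of_notMem hx]
  simp_rw [this]
  rw [lintegral_indicator_const hKm, one_mul]

theorem Fi_planch {h : Eu m → ℂ} (h1 : Integrable h) (h2 : MemLp h 2) :
    ∫⁻ y, ‖Fi h y‖ₑ ^ 2 = ∫⁻ x, ‖h x‖ₑ ^ 2 := by
  rw [← JL3mult.mb_plancherel h h1 h2, ← lintegral_neg_eq_self (μ := (volume : Measure (Eu m)))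
    (fun y => ‖𝓕 h y‖ₑ ^ 2)]
  refine lintegral_congr fun y => ?_
  unfold Fi
  rw [Real.fourierInv_eq_fourier_neg]

theorem Fi_shift (f : Eu m → ℂ) (w y : Eu m) :
    Fi (fun x => f (x - w)) y = cexp ((2 * Real.pi * ⟪w, y⟫ : ℝ) * I) * Fi f y := by
  unfold Fi
  rw [Real.fourierInv_eq_fourier_neg, Real.fourierInv_eq_fourier_neg]
  have h5 := congrFun (VectorFourier.fourierIntegral_comp_add_right Real.fourierChar
      (volume : Measure (Eu m)) (innerₗ (Eu m)) f (-w)) (-y)
  have h6 : 𝓕 (fun x => f (x - w)) (-y) = VectorFourier.fourierIntegral Real.fourierChar volume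
      (innerₗ (Eu m)) (f ∘ fun v : Eu m => v + -w) (-y) := by
    rw [show (f ∘ fun v : Eu m => v + -w) = fun x => f (x - w) from by
      funext x
      simp [sub_eq_add_neg]]
    rfl
  rw [h6, h5, Circle.smul_def, Real.fourierChar_apply, smul_eq_mul]
  congr 2
  rw [innerₗ_apply_apply, inner_neg_neg]

theorem Fi_sub {f g : Eu m → ℂ} (hf : Integrable f) (hg : Integrable g) (y : Eu m) :
    Fi (fun x => f x - g x) y = Fi f y - Fi g y := by
  unfold Fi
  rw [Real.fourierInv_eq, Real.fourierInv_eq, Real.fourierInv_eq, ← integral_sub]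
  · congr 1
    funext x
    rw [smul_sub]
  · have := (Real.fourierIntegral_convergent_iff (f := f) (μ := (volume : Measure (Eu m))) (-y)).2 hf
    simpa using this
  · have := (Real.fourierIntegral_convergent_iff (f := g) (μ := (volume : Measure (Eu m))) (-y)).2 hg
    simpa using this

/-- `L²` bound for the difference. -/
theorem diff_L2 {K : Set (Eu m)} (hK : Convex ℝ K) (hKm : MeasurableSet K)
    (hfin : volume K ≠ ∞) {v : Eu m} (hv : v ∈ K - K) {s : ℝ} (h0 : 0 ≤ s) (h1 : s ≤ 1) :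
    ∫⁻ y, ‖(cexp ((2 * Real.pi * ⟪s • v, y⟫ : ℝ) * I) - 1) * Fi (ind K) y‖ₑ ^ 2
      ≤ ENNReal.ofReal (2 * (m * s)) * volume K := by
  obtain ⟨a, ha, b, hb, hab⟩ := mem_sub.1 hv
  set w : Eu m := s • v with hw
  set K' : Set (Eu m) := {x | x - w ∈ K} with hK'
  have hK'm : MeasurableSet K' := (measurable_id.sub_const _) hKm
  have hvol' : volume K' = volume K := by
    have : K' = (fun x => x - w) ⁻¹' K := rfl
    rw [this]
    simp_rw [sub_eq_add_neg]
    exact measure_preimage_add_right _ _ _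
  have hfin' : volume K' ≠ ∞ := by rw [hvol']; exact hfin
  have hint := ind_int hKm hfin
  have hint' := ind_int hK'm hfin'
  have e0 : ind K' = fun x => ind K (x - w) := by
    funext x
    unfold ind
    by_cases hx : x - w ∈ K
    · rw [indicator_of_mem hx, indicator_of_mem (show x ∈ K' from hx)]
    · rw [indicator_of_notMem hx, indicator_of_notMem (show x ∉ K' from hx)]
  have e1 : ∀ y, (cexp ((2 * Real.pi * ⟪w, y⟫ : ℝ) * I) - 1) * Fi (ind K) y
      = Fi (fun x => ind K' x - ind K x) y := by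
    intro y
    rw [Fi_sub hint' hint, e0, Fi_shift]
    ring
  simp_rw [e1]
  have ePl : ∫⁻ y, ‖Fi (fun x => ind K' x - ind K x) y‖ₑ ^ 2
      = ∫⁻ x, ‖ind K' x - ind K x‖ₑ ^ 2 :=
    Fi_planch (hint'.sub hint) ((ind_L2 hK'm hfin').sub (ind_L2 hKm hfin))
  rw [ePl]
  have e2 : ∀ x, ‖ind K' x - ind K x‖ₑ ^ 2 ≤
      (K \ K').indicator (fun _ => (1 : ℝ≥0∞)) x + (K' \ K).indicator (fun _ => (1 : ℝ≥0∞)) x := by
    intro x
    unfold ind
    by_cases hx : x ∈ K <;> by_cases hx' : x ∈ K' <;> simp [hx, hx']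
  refine (lintegral_mono e2).trans ?_
  rw [lintegral_add_left (measurable_const.indicator (hKm.diff hK'm)),
    lintegral_indicator_const (hKm.diff hK'm), lintegral_indicator_const (hK'm.diff hKm),
    one_mul, one_mul]
  have e3 : volume (K \ K') ≤ ENNReal.ofReal (m * s) * volume K := by
    have := chord_shift hK hKm hfin ha hb h0 h1
    rw [hab] at this
    exact this
  have e4 : volume (K' \ K) = volume (K \ K') := by
    have i1 := measure_inter_add_sdiff (μ := volume) K hK'm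
    have i2 := measure_inter_add_sdiff (μ := volume) K' hKm
    rw [inter_comm] at i2
    rw [hvol', ← i1] at i2
    have hf : volume (K ∩ K') ≠ ∞ := ne_top_of_le_ne_top hfin (measure_mono inter_subset_left)
    exact (ENNReal.add_right_inj hf).1 i2
  rw [e4, ENNReal.ofReal_mul (by norm_num), mul_assoc, ← two_mul]
  refine le_trans (mul_le_mul_right e3 2) (le_of_eq ?_)
  norm_num

/-- the dyadic shells -/
def sh (M : Matrix (Fin m) (Fin m) ℝ) : ℕ → Set (Eu m)
  | 0 => reg M 1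
  | k + 1 => reg M (2 ^ (k + 1)) \ reg M (2 ^ k)

theorem sh_meas (M : Matrix (Fin m) (Fin m) ℝ) (k : ℕ) : MeasurableSet (sh M k) := by
  cases k with
  | zero => exact reg_measurable M 1
  | succ k => exact (reg_measurable M _).diff (reg_measurable M _)

theorem sh_sub (M : Matrix (Fin m) (Fin m) ℝ) (k : ℕ) : sh M k ⊆ reg M (2 ^ k) := by
  cases k with
  | zero => simp [sh]
  | succ k => exact sdiff_subset

theorem reg_mono (M : Matrix (Fin m) (Fin m) ℝ) {r r' : ℝ} (h : r ≤ r') : reg M r ⊆ reg M r' :=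
  fun _ hy j => (hy j).trans h

theorem sh_disj (M : Matrix (Fin m) (Fin m) ℝ) : Pairwise (Function.onFun Disjoint (sh M)) := by
  have key : ∀ i j : ℕ, i < j → Disjoint (sh M i) (sh M j) := by
    intro i j hij
    obtain ⟨j, rfl⟩ : ∃ j', j = j' + 1 := ⟨j - 1, by omega⟩
    rw [Set.disjoint_left]
    intro y hy hy'
    exact hy'.2 (reg_mono M (pow_le_pow_right₀ one_le_two (by omega)) (sh_sub M i hy))
  intro i j hij
  rcases lt_or_gt_of_ne hij with h | h
  · exact key i j h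
  · exact (key j i h).symm

theorem sh_union (M : Matrix (Fin m) (Fin m) ℝ) : ⋃ k, sh M k = univ := by
  rw [eq_univ_iff_forall]
  intro y
  have hex : ∃ k : ℕ, y ∈ reg M (2 ^ k) := by
    have h1 : ∃ R : ℝ, ∀ j, |inner ℝ (colv M j) y| ≤ R := by
      refine ⟨∑ j, |inner ℝ (colv M j) y|, fun j => ?_⟩
      exact Finset.single_le_sum (f := fun j => |inner ℝ (colv M j) y|)
        (fun _ _ => abs_nonneg _) (Finset.mem_univ j)
    obtain ⟨R, hR⟩ := h1
    obtain ⟨k, hk⟩ := pow_unbounded_of_one_lt R (one_lt_two)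
    exact ⟨k, fun j => (hR j).trans hk.le⟩
  classical
  set k := Nat.find hex with hk
  have hspec : y ∈ reg M (2 ^ k) := Nat.find_spec hex
  refine mem_iUnion.2 ⟨k, ?_⟩
  rcases Nat.eq_zero_or_pos k with h0 | h0
  · rw [h0] at hspec ⊢
    simpa [sh] using hspec
  · obtain ⟨j, hj⟩ : ∃ j, k = j + 1 := ⟨k - 1, by omega⟩
    rw [hj] at hspec ⊢
    refine ⟨hspec, ?_⟩
    exact Nat.find_min hex (show j < Nat.find hex by omega)

theorem exp_sub_one_sq {θ : ℝ} (h1 : Real.pi / 2 ≤ |θ|) (h2 : |θ| ≤ Real.pi) :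
    (2 : ℝ≥0∞) ≤ ‖cexp ((θ : ℝ) * I) - 1‖ₑ ^ 2 := by
  have e1 : ‖cexp ((θ : ℝ) * I) - 1‖ ^ 2 = 2 - 2 * Real.cos θ := by
    rw [← Complex.normSq_eq_norm_sq, Complex.normSq_apply]
    simp only [Complex.sub_re, Complex.sub_im, Complex.one_re, Complex.one_im,
      Complex.exp_ofReal_mul_I_re, Complex.exp_ofReal_mul_I_im]
    nlinarith [Real.sin_sq_add_cos_sq θ]
  have e2 : Real.cos θ ≤ 0 := by
    rw [← Real.cos_abs]
    exact Real.cos_nonpos_of_pi_div_two_le_of_le h1 (by linarith [Real.pi_pos])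
  rw [← ofReal_norm, ← ENNReal.ofReal_pow (norm_nonneg _), e1]
  rw [show (2 : ℝ≥0∞) = ENNReal.ofReal 2 by simp]
  exact ENNReal.ofReal_le_ofReal (by linarith)

/-- `L²` mass of the transform on the shells -/
theorem sh_L2 (hm : 1 ≤ m) {K : Set (Eu m)} (hK : Convex ℝ K) (hKm : MeasurableSet K)
    (hfin : volume K ≠ ∞) {M : Matrix (Fin m) (Fin m) ℝ} (hM : Chords K M) (k : ℕ) :
    ∫⁻ y in sh M k, ‖Fi (ind K) y‖ₑ ^ 2 ≤ ENNReal.ofReal (m ^ 2 / 2 ^ k) * volume K := by
  have hm1 : (1 : ℝ) ≤ m := by exact_mod_cast hm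
  cases k with
  | zero =>
    refine (setLIntegral_le_lintegral _ _).trans ?_
    rw [Fi_planch (ind_int hKm hfin) (ind_L2 hKm hfin), ind_lint hKm]
    refine le_mul_of_one_le_left (by positivity) ?_
    rw [pow_zero, div_one, ← ENNReal.ofReal_one]
    exact ENNReal.ofReal_le_ofReal (by nlinarith)
  | succ k =>
    set s : ℝ := 1 / (4 * 2 ^ k) with hs
    have hs0 : 0 < s := by positivity
    have hs1 : s ≤ 1 := by
      rw [hs, div_le_one (by positivity)]
      have : (1 : ℝ) ≤ 2 ^ k := one_le_pow₀ one_le_two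
      linarith
    have hpt : ∀ y ∈ sh M (k + 1), (2 : ℝ≥0∞) * ‖Fi (ind K) y‖ₑ ^ 2 ≤
        ∑ j : Fin m, ‖(cexp ((2 * Real.pi * ⟪s • colv M j, y⟫ : ℝ) * I) - 1)
          * Fi (ind K) y‖ₑ ^ 2 := by
      intro y hy
      have h1 : y ∈ reg M (2 ^ (k + 1)) := hy.1
      have h2 : y ∉ reg M (2 ^ k) := hy.2
      simp only [reg, mem_ofPred_eq, not_forall, not_le] at h2
      obtain ⟨j, hj⟩ := h2
      refine le_trans ?_ (Finset.single_le_sum (f := fun j => ‖(cexp ((2 * Real.pi *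
        ⟪s • colv M j, y⟫ : ℝ) * I) - 1) * Fi (ind K) y‖ₑ ^ 2) (fun _ _ => zero_le)
        (Finset.mem_univ j))
      rw [enorm_mul, mul_pow]
      refine mul_le_mul_left ?_ _
      have h3 : |inner ℝ (colv M j) y| ≤ 2 ^ (k + 1) := h1 j
      have e1 : |2 * Real.pi * ⟪s • colv M j, y⟫| = Real.pi / 2 * (|inner ℝ (colv M j) y| / 2 ^ k) := by
        rw [real_inner_smul_left, abs_mul, abs_mul, abs_mul, abs_of_pos Real.pi_pos,
          abs_of_pos hs0, hs, abs_two]
        field_simp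
        ring
      have hp := Real.pi_pos
      have h4 : 1 ≤ |inner ℝ (colv M j) y| / 2 ^ k := by
        rw [le_div_iff₀ (by positivity), one_mul]
        exact hj.le
      have h5 : |inner ℝ (colv M j) y| / 2 ^ k ≤ 2 := by
        rw [div_le_iff₀ (by positivity)]
        calc _ ≤ (2 : ℝ) ^ (k + 1) := h3
          _ = _ := by ring
      refine exp_sub_one_sq ?_ ?_
      · rw [e1]; nlinarith
      · rw [e1]; nlinarith
    have hmeas : ∀ j : Fin m, Measurable fun y : Eu m =>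
        ‖(cexp ((2 * Real.pi * ⟪s • colv M j, y⟫ : ℝ) * I) - 1) * Fi (ind K) y‖ₑ ^ 2 := by
      intro j
      have h1 : Continuous fun y : Eu m =>
          (cexp ((2 * Real.pi * ⟪s • colv M j, y⟫ : ℝ) * I) - 1) * Fi (ind K) y :=
        Continuous.mul (by fun_prop) (Fi_cont (ind_int hKm hfin))
      exact (h1.measurable.enorm).pow_const 2
    have h1 : 2 * ∫⁻ y in sh M (k + 1), ‖Fi (ind K) y‖ₑ ^ 2
        ≤ (m : ℝ≥0∞) * (ENNReal.ofReal (2 * (m * s)) * volume K) := by
      rw [← lintegral_const_mul' _ _ (by norm_num)]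
      refine (setLIntegral_mono' (sh_meas M (k + 1)) hpt).trans ?_
      refine (setLIntegral_le_lintegral _ _).trans ?_
      rw [lintegral_finsetSum _ fun j _ => hmeas j]
      refine (Finset.sum_le_sum fun j _ =>
        diff_L2 hK hKm hfin (hM j) hs0.le hs1).trans (le_of_eq ?_)
      rw [Finset.sum_const, Finset.card_univ, Fintype.card_fin, nsmul_eq_mul]
    have h2 : (m : ℝ≥0∞) * (ENNReal.ofReal (2 * (m * s)) * volume K)
        = 2 * (ENNReal.ofReal (m ^ 2 * s) * volume K) := by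
      have e2 : (2 : ℝ≥0∞) * (ENNReal.ofReal (m ^ 2 * s) * volume K)
          = ENNReal.ofReal 2 * (ENNReal.ofReal (m ^ 2 * s) * volume K) := by norm_num
      rw [e2, ← ENNReal.ofReal_natCast, ← mul_assoc (ENNReal.ofReal (m : ℝ)),
        ← mul_assoc (ENNReal.ofReal 2), ← ENNReal.ofReal_mul (by positivity),
        ← ENNReal.ofReal_mul (by positivity)]
      congr 2
      ring
    rw [h2] at h1
    have h3 := (ENNReal.mul_le_mul_iff_right (by norm_num) (by norm_num)).1 h1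
    refine h3.trans (mul_le_mul_left (ENNReal.ofReal_le_ofReal ?_) _)
    rw [hs, pow_succ (2 : ℝ) k]
    have : (0 : ℝ) < 2 ^ k := by positivity
    rw [mul_one_div]
    exact div_le_div_of_nonneg_left (by positivity) (by positivity) (by linarith)

theorem sh_vol (M : Matrix (Fin m) (Fin m) ℝ) (hdet : M.det ≠ 0) (k : ℕ) :
    volume (sh M k) ≠ ∞ := by
  refine ne_top_of_le_ne_top ?_ (measure_mono (sh_sub M k))
  rw [vol_reg M hdet]
  exact ENNReal.mul_ne_top ENNReal.ofReal_ne_top (ENNReal.pow_ne_top ENNReal.ofReal_ne_top)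

theorem cs_set {F : Eu m → ℂ} (hF : Measurable F) (S : Set (Eu m)) :
    (∫⁻ y in S, ‖F y‖ₑ) ^ 2 ≤ (∫⁻ y in S, ‖F y‖ₑ ^ 2) * volume S := by
  have h := ENNReal.lintegral_mul_le_Lp_mul_Lq (μ := volume.restrict S)
    (p := 2) (q := 2) (by constructor <;> norm_num) (f := fun y => ‖F y‖ₑ) (g := fun _ => 1)
    hF.enorm.aemeasurable aemeasurable_const
  simp only [Pi.mul_apply, mul_one, ENNReal.one_rpow, lintegral_one,
    Measure.restrict_apply_univ, one_div] at h
  have h2 := pow_le_pow_left₀ (zero_le) h 2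
  refine h2.trans (le_of_eq ?_)
  rw [mul_pow, ← ENNReal.rpow_natCast, ← ENNReal.rpow_natCast, ← ENNReal.rpow_mul,
    ← ENNReal.rpow_mul]
  norm_num

/-- `L¹` mass of the transform on the shells -/
theorem sh_L1 (hm : 1 ≤ m) {K : Set (Eu m)} (hK : Convex ℝ K) (hKm : MeasurableSet K)
    (hfin : volume K ≠ ∞) {M : Matrix (Fin m) (Fin m) ℝ} (hM : Chords K M) (hdet : M.det ≠ 0)
    (hvol : volume K ≤ ENNReal.ofReal (4 ^ m * |M.det|)) (k : ℕ) :
    ∫⁻ y in sh M k, ‖Fi (ind K) y‖ₑ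
      ≤ ENNReal.ofReal (Real.sqrt (m ^ 2 / 2 ^ k * (8 * 2 ^ k) ^ m)) := by
  have h1 := cs_set (Fi_cont (ind_int hKm hfin)).measurable (sh M k)
  have h2 : (∫⁻ y in sh M k, ‖Fi (ind K) y‖ₑ) ^ 2
      ≤ ENNReal.ofReal (m ^ 2 / 2 ^ k * (8 * 2 ^ k) ^ m) := by
    refine h1.trans ?_
    refine (mul_le_mul (sh_L2 hm hK hKm hfin hM k) (measure_mono (sh_sub M k)) zero_le
      zero_le).trans ?_
    rw [mul_assoc, mul_comm (volume K), ENNReal.ofReal_mul (by positivity)]
    exact mul_le_mul_right (vol_reg_mul hdet hvol (by positivity)) _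
  have h3 : ENNReal.ofReal (m ^ 2 / 2 ^ k * (8 * 2 ^ k) ^ m)
      = ENNReal.ofReal (Real.sqrt (m ^ 2 / 2 ^ k * (8 * 2 ^ k) ^ m)) ^ 2 := by
    rw [← ENNReal.ofReal_pow (Real.sqrt_nonneg _), Real.sq_sqrt (by positivity)]
  rw [h3] at h2
  exact (ENNReal.pow_le_pow_left_iff two_ne_zero).1 h2

end Pool.Agent.TH297.QC
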