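import Pool.Agent.TH297.QC.Union

/-!
# Strong type bounds for unions of convex sets
-/

set_option autoImplicit false

namespace Pool.Agent.TH297.QC

open MeasureTheory Set Filter Topology Complex
open scoped Pointwise ENNReal FourierTransform RealInnerProductSpace
open Pool.Agent.Helper160.MF

variable {m : ℕ}

theorem lint_low {b s0 : ℝ} (hb : b < 1) (hs : 0 ≤ s0) :
    ∫⁻ s in Ioc 0 s0, ENNReal.ofReal (s ^ (-b)) = ENNReal.ofReal (s0 ^ (1 - b) / (1 - b)) := by
  have h1 : IntervalIntegrable (fun s : ℝ => s ^ (-b)) volume 0 s0 :=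
    intervalIntegral.intervalIntegrable_rpow' (by linarith)
  rw [intervalIntegrable_iff_integrableOn_Ioc_of_le hs] at h1
  rw [← ofReal_integral_eq_lintegral_ofReal h1]
  · rw [← intervalIntegral.integral_of_le hs, integral_rpow (Or.inl (by linarith))]
    rw [Real.zero_rpow (by linarith), sub_zero, show -b + 1 = 1 - b by ring]
  · filter_upwards [ae_restrict_mem measurableSet_Ioc] with s hs
    exact Real.rpow_nonneg hs.1.le _

theorem lint_high {b s0 : ℝ} (hb : 1 < b) (hs : 0 < s0) :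
    ∫⁻ s in Ioi s0, ENNReal.ofReal (s ^ (-b)) = ENNReal.ofReal (s0 ^ (1 - b) / (b - 1)) := by
  have h1 : IntegrableOn (fun s : ℝ => s ^ (-b)) (Ioi s0) :=
    integrableOn_Ioi_rpow_of_lt (by linarith) hs
  rw [← ofReal_integral_eq_lintegral_ofReal h1]
  · rw [integral_Ioi_rpow_of_lt (by linarith) hs]
    congr 1
    rw [show -b + 1 = 1 - b by ring, ← neg_div_neg_eq, neg_neg, neg_sub]
  · filter_upwards [ae_restrict_mem measurableSet_Ioi] with s hs'
    exact Real.rpow_nonneg (hs.trans hs').le _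

/-- strong type -/
theorem strong_union (hm : 1 ≤ m) (N : ℕ) {q : ℝ} (hq : 2 + 2 / (m : ℝ) < q) {A : Set (Eu m)}
    (hA : UC N A) (hfin : volume A ≠ ∞) :
    ∫⁻ z : Eu m × ℝ, ‖ext (ind A) z.1 z.2‖ₑ ^ q
      ≤ ENNReal.ofReal (q * (CU m N / (q - (2 + 2 / (m : ℝ))))) *
        volume A ^ (q - (1 + 2 / (m : ℝ))) := by
  have hm0 : (0 : ℝ) < m := by exact_mod_cast hm
  set qc : ℝ := 2 + 2 / (m : ℝ) with hqc
  have hqc0 : 0 < qc := by positivity
  have hq0 : 0 < q := hqc0.trans hq
  set V : ℝ := (volume A).toReal with hV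
  have hV0 : 0 ≤ V := ENNReal.toReal_nonneg
  have hVe : volume A = ENNReal.ofReal V := (ENNReal.ofReal_toReal hfin).symm
  have hnull := UC_null hA
  have hint : Integrable (ind A) := by
    have : ind A = A.indicator fun _ => (1 : ℂ) := rfl
    rw [this]
    exact (integrableOn_const hfin).integrable_indicator₀ hnull
  have hmeas := (ext_cont hint).norm.measurable
  have e1 : ∀ z : Eu m × ℝ, ‖ext (ind A) z.1 z.2‖ₑ ^ q
      = ENNReal.ofReal (‖ext (ind A) z.1 z.2‖ ^ q) := by
    intro z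
    rw [← ofReal_norm, ENNReal.ofReal_rpow_of_nonneg (norm_nonneg _) hq0.le]
  simp_rw [e1]
  rw [lintegral_rpow_eq_lintegral_meas_lt_mul volume
    (Eventually.of_forall fun z => norm_nonneg _) hmeas.aemeasurable hq0]
  have hC := CU_nonneg hm N
  have hbd : ∀ t ∈ Ioi (0 : ℝ), volume {z : Eu m × ℝ | t < ‖ext (ind A) z.1 z.2‖} *
      ENNReal.ofReal (t ^ (q - 1)) ≤ (Ioc 0 V).indicator
        (fun t => ENNReal.ofReal (CU m N) * volume A * ENNReal.ofReal (t ^ (-(1 + qc - q)))) t := by
    intro t ht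
    have ht0 : (0 : ℝ) < t := ht
    by_cases htV : t ≤ V
    · rw [indicator_of_mem (show t ∈ Ioc 0 V from ⟨ht0, htV⟩)]
      refine (mul_le_mul_left (weak_union hm hA hfin ht0) _).trans (le_of_eq ?_)
      rw [show 2 ^ N * (CW m * (2 ^ N) ^ (2 + 2 / (m : ℝ))) = CU m N from rfl,
        ENNReal.ofReal_mul hC, mul_assoc, mul_assoc, mul_comm (volume A), mul_assoc,
        mul_comm (volume A), ← mul_assoc (ENNReal.ofReal (t ^ (-(2 + 2 / (m : ℝ))))),
        ← ENNReal.ofReal_mul (by positivity), ← Real.rpow_add ht0]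
      congr 4
      rw [hqc]
      ring
    · rw [indicator_of_notMem (fun h => htV h.2)]
      have : {z : Eu m × ℝ | t < ‖ext (ind A) z.1 z.2‖} = ∅ := by
        ext z
        simp only [mem_ofPred_eq, mem_empty_iff_false, iff_false, not_lt]
        exact (sup_bound hnull z.1 z.2).trans (not_le.1 htV).le
      rw [this, measure_empty, zero_mul]
  refine (mul_le_mul_right (setLIntegral_mono' measurableSet_Ioi hbd) _).trans ?_
  have h2 : ∫⁻ t in Ioi (0 : ℝ), (Ioc 0 V).indicator
        (fun t => ENNReal.ofReal (CU m N) * volume A * ENNReal.ofReal (t ^ (-(1 + qc - q)))) t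
      ≤ ENNReal.ofReal (CU m N) * volume A * ENNReal.ofReal (V ^ (q - qc) / (q - qc)) := by
    refine (setLIntegral_le_lintegral _ _).trans ?_
    rw [lintegral_indicator measurableSet_Ioc, lintegral_const_mul' _ _
      (ENNReal.mul_ne_top ENNReal.ofReal_ne_top hfin), lint_low (by linarith) hV0]
    rw [show 1 - (1 + qc - q) = q - qc by ring]
  refine (mul_le_mul_right h2 _).trans (le_of_eq ?_)
  have hqq : 0 < q - qc := by linarith
  have hexp : q - (1 + 2 / (m : ℝ)) = q - qc + 1 := by rw [hqc]; ring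
  have hV1 : 0 ≤ V ^ (q - qc) := by positivity
  rw [hVe, ENNReal.ofReal_rpow_of_nonneg hV0 (by rw [hexp]; linarith), hexp,
    Real.rpow_add_one' hV0 (by linarith), ← ENNReal.ofReal_mul hC,
    ← ENNReal.ofReal_mul (by positivity), ← ENNReal.ofReal_mul hq0.le,
    ← ENNReal.ofReal_mul (by positivity)]
  congr 1
  ring

end Pool.Agent.TH297.QC
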