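import Pool.Agent.TH297.QC.WConv

/-!
# The endpoint weak type inequality for unions of boundedly many convex sets
-/

set_option autoImplicit false

namespace Pool.Agent.TH297.QC

open MeasureTheory Set Filter Topology Complex
open scoped Pointwise ENNReal FourierTransform RealInnerProductSpace
open Pool.Agent.Helper160.MF

variable {m : ℕ}

theorem ind_ae_interior {K : Set (Eu m)} (hK : Convex ℝ K) : ind K =ᵐ[volume] ind (interior K) := by
  have h1 : ∀ᵐ ξ : Eu m, ξ ∉ frontier K := by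
    rw [ae_iff]
    simpa using hK.addHaar_frontier volume
  filter_upwards [h1] with ξ hξ
  unfold ind
  by_cases h : ξ ∈ interior K
  · rw [indicator_of_mem h, indicator_of_mem (interior_subset h)]
  · rw [indicator_of_notMem h, indicator_of_notMem]
    intro h2
    exact hξ ⟨subset_closure h2, h⟩

theorem vol_interior {K : Set (Eu m)} (hK : Convex ℝ K) : volume (interior K) = volume K := by
  refine measure_congr ?_
  have h1 : ∀ᵐ ξ : Eu m, ξ ∉ frontier K := by
    rw [ae_iff]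
    simpa using hK.addHaar_frontier volume
  filter_upwards [h1] with ξ hξ
  apply propext
  constructor
  · intro h
    exact interior_subset h
  · intro h
    by_contra h2
    exact hξ ⟨subset_closure h, h2⟩

theorem ind_int' {K : Set (Eu m)} (hK : Convex ℝ K) (hfin : volume K ≠ ∞) : Integrable (ind K) := by
  rw [integrable_congr (ind_ae_interior hK)]
  exact ind_int isOpen_interior.measurableSet (by rwa [vol_interior hK])

theorem ext_congr {f g : Eu m → ℂ} (h : f =ᵐ[volume] g) (x : Eu m) (t : ℝ) :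
    ext f x t = ext g x t := by
  unfold ext
  refine integral_congr_ae ?_
  filter_upwards [h] with ξ hξ
  rw [hξ]

theorem weak_convex' (hm : 1 ≤ m) {K : Set (Eu m)} (hK : Convex ℝ K)
    (hfin : volume K ≠ ∞) {lam : ℝ} (hlam : 0 < lam) :
    volume {p : Eu m × ℝ | lam < ‖ext (ind K) p.1 p.2‖}
      ≤ ENNReal.ofReal (CW m * lam ^ (-(2 + 2 / (m : ℝ)))) * volume K := by
  have h := weak_convex hm hK.interior isOpen_interior.measurableSet
    (by rwa [vol_interior hK]) hlam
  rw [vol_interior hK] at h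
  simp_rw [ext_congr (ind_ae_interior hK)]
  exact h

/-- unions of `N` convex sets -/
def UC (N : ℕ) (A : Set (Eu m)) : Prop :=
  ∃ K : Fin N → Set (Eu m), (∀ i, Convex ℝ (K i)) ∧ A = ⋃ i, K i

theorem ind_union {N : ℕ} (K : Fin N → Set (Eu m)) (ξ : Eu m) :
    ind (⋃ i, K i) ξ = ∑ t ∈ (Finset.univ : Finset (Fin N)).powerset with t.Nonempty,
      ((-1 : ℂ) ^ (t.card + 1)) * ind (⋂ i ∈ t, K i) ξ := by
  have h := Finset.indicator_biUnion_eq_sum_powerset (Finset.univ : Finset (Fin N)) K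
    (fun _ : Eu m => (1 : ℂ)) ξ
  have e : (⋃ i ∈ (Finset.univ : Finset (Fin N)), K i) = ⋃ i, K i := by simp
  rw [e] at h
  unfold ind
  rw [h]
  refine Finset.sum_congr rfl fun t _ => ?_
  rw [zsmul_eq_mul]
  push_cast
  rfl

theorem ext_exp_norm (f : Eu m → ℂ) (x : Eu m) (t : ℝ) : ‖ext f x t‖ ≤ ∫ ξ, ‖f ξ‖ := by
  unfold ext
  refine (norm_integral_le_integral_norm _).trans (le_of_eq ?_)
  congr 1
  funext ξ
  rw [norm_mul, Complex.norm_exp_ofReal_mul_I, one_mul]

theorem ext_integrand_int {f : Eu m → ℂ} (hf : Integrable f) (x : Eu m) (t : ℝ) :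
    Integrable fun ξ : Eu m => cexp ((2 * Real.pi * (⟪ξ, x⟫ + t * ‖ξ‖ ^ 2) : ℝ) * I) * f ξ := by
  refine hf.mono (AEStronglyMeasurable.mul (Continuous.aestronglyMeasurable (by fun_prop)) hf.1)
    (Eventually.of_forall fun ξ => ?_)
  rw [norm_mul, Complex.norm_exp_ofReal_mul_I, one_mul]

theorem ext_union {N : ℕ} {K : Fin N → Set (Eu m)} (hK : ∀ i, Convex ℝ (K i))
    (hfin : volume (⋃ i, K i) ≠ ∞) (x : Eu m) (t : ℝ) :
    ext (ind (⋃ i, K i)) x t = ∑ s ∈ (Finset.univ : Finset (Fin N)).powerset with s.Nonempty,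
      ((-1 : ℂ) ^ (s.card + 1)) * ext (ind (⋂ i ∈ s, K i)) x t := by
  have h1 : ∀ s ∈ (Finset.univ : Finset (Fin N)).powerset.filter Finset.Nonempty,
      Integrable (ind (⋂ i ∈ s, K i)) := by
    intro s hs
    obtain ⟨i, hi⟩ := (Finset.mem_filter.1 hs).2
    refine ind_int' (convex_iInter₂ fun i _ => hK i) ?_
    refine ne_top_of_le_ne_top hfin (measure_mono ?_)
    exact (biInter_subset_of_mem hi).trans (subset_iUnion K i)
  unfold ext
  simp_rw [ind_union K, Finset.mul_sum]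
  rw [integral_finsetSum]
  · refine Finset.sum_congr rfl fun s _ => ?_
    rw [← integral_const_mul]
    congr 1
    funext ξ
    ring
  · intro s hs
    have h2 := (ext_integrand_int (h1 s hs) x t).const_mul ((-1 : ℂ) ^ (s.card + 1))
    refine h2.congr (Eventually.of_forall fun ξ => ?_)
    simp only
    ring

/-- The weak type inequality for unions of convex sets. -/
theorem weak_union (hm : 1 ≤ m) {N : ℕ} {A : Set (Eu m)} (hA : UC N A) (hfin : volume A ≠ ∞)
    {lam : ℝ} (hlam : 0 < lam) :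
    volume {p : Eu m × ℝ | lam < ‖ext (ind A) p.1 p.2‖}
      ≤ ENNReal.ofReal (2 ^ N * (CW m * (2 ^ N) ^ (2 + 2 / (m : ℝ))) *
        lam ^ (-(2 + 2 / (m : ℝ)))) * volume A := by
  obtain ⟨K, hK, rfl⟩ := hA
  set F := (Finset.univ : Finset (Fin N)).powerset.filter Finset.Nonempty with hF
  have hcard : (F.card : ℝ) ≤ 2 ^ N := by
    have h1 : F.card ≤ (Finset.univ : Finset (Fin N)).powerset.card := Finset.card_filter_le _ _
    rw [Finset.card_powerset, Finset.card_univ, Fintype.card_fin] at h1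
    exact_mod_cast h1
  have hsub : {p : Eu m × ℝ | lam < ‖ext (ind (⋃ i, K i)) p.1 p.2‖} ⊆
      ⋃ s ∈ F, {p : Eu m × ℝ | lam / 2 ^ N < ‖ext (ind (⋂ i ∈ s, K i)) p.1 p.2‖} := by
    intro p hp
    by_contra hcon
    simp only [mem_iUnion, exists_prop, not_exists, not_and, mem_ofPred_eq, not_lt] at hcon
    have hp' : lam < ‖ext (ind (⋃ i, K i)) p.1 p.2‖ := hp
    rw [ext_union hK hfin] at hp'
    have h1 : ‖∑ s ∈ F, ((-1 : ℂ) ^ (s.card + 1)) * ext (ind (⋂ i ∈ s, K i)) p.1 p.2‖
        ≤ lam := by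
      refine (norm_sum_le _ _).trans ?_
      have h2 : ∀ s ∈ F, ‖((-1 : ℂ) ^ (s.card + 1)) * ext (ind (⋂ i ∈ s, K i)) p.1 p.2‖
          ≤ lam / 2 ^ N := by
        intro s hs
        rw [norm_mul, norm_pow, norm_neg, norm_one, one_pow, one_mul]
        exact hcon s hs
      refine (Finset.sum_le_sum h2).trans ?_
      rw [Finset.sum_const, nsmul_eq_mul, mul_div_assoc']
      rw [div_le_iff₀ (by positivity), mul_comm lam]
      exact mul_le_mul_of_nonneg_right hcard hlam.le
    exact absurd hp' (not_lt.2 h1)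
  refine (measure_mono hsub).trans ((measure_biUnion_finset_le _ _).trans ?_)
  have hC := CW_nonneg hm
  have h3 : ∀ s ∈ F, volume {p : Eu m × ℝ | lam / 2 ^ N < ‖ext (ind (⋂ i ∈ s, K i)) p.1 p.2‖}
      ≤ ENNReal.ofReal (CW m * (lam / 2 ^ N) ^ (-(2 + 2 / (m : ℝ)))) * volume (⋃ i, K i) := by
    intro s hs
    obtain ⟨i, hi⟩ := (Finset.mem_filter.1 hs).2
    have hsb : (⋂ i ∈ s, K i) ⊆ ⋃ i, K i :=
      (biInter_subset_of_mem hi).trans (subset_iUnion K i)
    refine (weak_convex' hm (convex_iInter₂ fun i _ => hK i)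
      (ne_top_of_le_ne_top hfin (measure_mono hsb)) (by positivity)).trans ?_
    exact mul_le_mul_right (measure_mono hsb) _
  refine (Finset.sum_le_sum h3).trans ?_
  rw [Finset.sum_const, nsmul_eq_mul, ← mul_assoc]
  refine mul_le_mul_left ?_ _
  rw [← ENNReal.ofReal_natCast, ← ENNReal.ofReal_mul (by positivity)]
  refine ENNReal.ofReal_le_ofReal ?_
  rw [Real.div_rpow hlam.le (by positivity), Real.rpow_neg (by positivity : (0 : ℝ) ≤ 2 ^ N),
    div_inv_eq_mul]
  have e : CW m * (lam ^ (-(2 + 2 / (m : ℝ))) * (2 ^ N) ^ (2 + 2 / (m : ℝ)))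
      = CW m * (2 ^ N) ^ (2 + 2 / (m : ℝ)) * lam ^ (-(2 + 2 / (m : ℝ))) := by ring
  rw [e, mul_assoc (2 ^ N)]
  exact mul_le_mul_of_nonneg_right hcard (by positivity)

/-- the constant for unions -/
noncomputable def CU (m N : ℕ) : ℝ := 2 ^ N * (CW m * (2 ^ N) ^ (2 + 2 / (m : ℝ)))

theorem CU_nonneg (hm : 1 ≤ m) (N : ℕ) : 0 ≤ CU m N := by
  have := CW_nonneg hm
  unfold CU
  positivity

theorem UC_null {N : ℕ} {A : Set (Eu m)} (hA : UC N A) : NullMeasurableSet A volume := by
  obtain ⟨K, hK, rfl⟩ := hA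
  exact NullMeasurableSet.iUnion fun i => (hK i).nullMeasurableSet volume

theorem sup_bound {A : Set (Eu m)} (hA : NullMeasurableSet A volume)
    (x : Eu m) (t : ℝ) : ‖ext (ind A) x t‖ ≤ (volume A).toReal := by
  refine (ext_exp_norm _ x t).trans (le_of_eq ?_)
  have : (fun ξ => ‖ind A ξ‖) = A.indicator fun _ => (1 : ℝ) := by
    funext ξ
    unfold ind
    by_cases h : ξ ∈ A
    · simp [h]
    · simp [h]
  rw [this, integral_indicator₀ hA]
  simp [Measure.real]

end Pool.Agent.TH297.QC
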