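import Pool.Agent.TH297.QC.Sets

/-!
# The endpoint weak type inequality for indicators of convex sets
-/

set_option autoImplicit false

namespace Pool.Agent.TH297.QC

open MeasureTheory Set Filter Topology Complex
open scoped Pointwise ENNReal FourierTransform RealInnerProductSpace
open Pool.Agent.Helper160.MF

variable {m : ℕ}

/-- the ratio -/
noncomputable def rr (m : ℕ) : ℝ := (2 : ℝ) ^ (-(1 / (4 * ((m : ℝ) + 1))))

theorem rr_pos (m : ℕ) : 0 < rr m := by unfold rr; positivity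

theorem rr_lt (m : ℕ) : rr m < 1 := by
  unfold rr
  exact Real.rpow_lt_one_of_one_lt_of_neg (by norm_num) (by rw [neg_lt_zero]; positivity)

theorem term_eq (hm : 1 ≤ m) (k : ℕ) (V : ℝ) {lam : ℝ} (hlam : 0 < lam) :
    (m ^ 2 / 2 ^ k * V) / ((1 - rr m) * rr m ^ k * lam) ^ 2 *
      (Real.sqrt (m ^ 2 / 2 ^ k * (8 * 2 ^ k) ^ m) / ((1 - rr m) * rr m ^ k * lam)) ^ (2 / (m : ℝ))
    = (8 * m ^ 2 * ((m : ℝ) ^ 2) ^ (1 / (m : ℝ)) / (1 - rr m) ^ (2 + 2 / (m : ℝ)) *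
        lam ^ (-(2 + 2 / (m : ℝ)))) * V * (((2 : ℝ) ^ (1 / (2 * (m : ℝ))))⁻¹) ^ k := by
  have hm0 : (0 : ℝ) < m := by exact_mod_cast hm
  have hr0 := rr_pos m
  have hr1 := rr_lt m
  have h1r : 0 < 1 - rr m := by linarith
  set P : ℝ := 2 ^ k with hP
  have hP0 : 0 < P := by positivity
  set r := rr m with hr
  set g : ℝ := 2 + 2 / (m : ℝ) with hg
  have e1 : Real.sqrt (m ^ 2 / P * (8 * P) ^ m) ^ (2 / (m : ℝ))
      = ((m : ℝ) ^ 2 / P) ^ (1 / (m : ℝ)) * (8 * P) := by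
    rw [Real.sqrt_eq_rpow, ← Real.rpow_mul (by positivity),
      show (1 : ℝ) / 2 * (2 / m) = 1 / m by field_simp,
      Real.mul_rpow (by positivity) (by positivity), ← Real.rpow_natCast (8 * P) m,
      ← Real.rpow_mul (by positivity), show (m : ℝ) * (1 / m) = 1 by field_simp, Real.rpow_one]
  have hc0 : 0 < (1 - r) * r ^ k * lam := by positivity
  have e3 : ((1 - r) * r ^ k * lam) ^ 2 * ((1 - r) * r ^ k * lam) ^ (2 / (m : ℝ))
      = ((1 - r) * r ^ k * lam) ^ g := by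
    rw [← Real.rpow_natCast _ 2, ← Real.rpow_add hc0]
    norm_num [hg]
  have e5 : (r ^ k) ^ g = (r ^ g) ^ k := by
    rw [← Real.rpow_natCast r k, ← Real.rpow_mul hr0.le, mul_comm, Real.rpow_mul hr0.le,
      Real.rpow_natCast]
  have e4 : ((1 - r) * r ^ k * lam) ^ g = (1 - r) ^ g * (r ^ g) ^ k * lam ^ g := by
    rw [Real.mul_rpow (by positivity) hlam.le, Real.mul_rpow h1r.le (by positivity), e5]
  have e6 : ((m : ℝ) ^ 2 / P) ^ (1 / (m : ℝ))
      = ((m : ℝ) ^ 2) ^ (1 / (m : ℝ)) / ((2 : ℝ) ^ (1 / (m : ℝ))) ^ k := by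
    rw [Real.div_rpow (by positivity) hP0.le, hP]
    congr 1
    rw [← Real.rpow_natCast 2 k, ← Real.rpow_mul (by norm_num), mul_comm,
      Real.rpow_mul (by norm_num), Real.rpow_natCast]
  have e7 : (2 : ℝ) ^ (1 / (m : ℝ)) * r ^ g = (2 : ℝ) ^ (1 / (2 * (m : ℝ))) := by
    rw [hr, rr, ← Real.rpow_mul (by norm_num), ← Real.rpow_add (by norm_num), hg]
    congr 1
    field_simp
    ring
  rw [Real.div_rpow (Real.sqrt_nonneg _) hc0.le, e1]
  have e8 : (m ^ 2 / P * V) / ((1 - r) * r ^ k * lam) ^ 2 *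
      (((m : ℝ) ^ 2 / P) ^ (1 / (m : ℝ)) * (8 * P) / ((1 - r) * r ^ k * lam) ^ (2 / (m : ℝ)))
      = (8 * m ^ 2 * V) * ((m : ℝ) ^ 2 / P) ^ (1 / (m : ℝ)) / ((1 - r) * r ^ k * lam) ^ g := by
    rw [← e3]
    have := Real.rpow_pos_of_pos hc0 (2 / (m : ℝ))
    field_simp
  rw [e8, e4, e6, Real.rpow_neg hlam.le, ← e7, inv_pow, mul_pow]
  have h2 : (0 : ℝ) < 2 ^ (1 / (m : ℝ)) := by positivity
  have h3 : 0 < r ^ g := by positivity
  have h4 : 0 < lam ^ g := by positivity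
  have h5 : 0 < (1 - r) ^ g := by positivity
  field_simp

/-- the constant of the endpoint inequality -/
noncomputable def CW (m : ℕ) : ℝ :=
  8 * m ^ 2 * ((m : ℝ) ^ 2) ^ (1 / (m : ℝ)) / (1 - rr m) ^ (2 + 2 / (m : ℝ)) *
    (1 - ((2 : ℝ) ^ (1 / (2 * (m : ℝ))))⁻¹)⁻¹

theorem CW_nonneg (hm : 1 ≤ m) : 0 ≤ CW m := by
  have hm0 : (0 : ℝ) < m := by exact_mod_cast hm
  have hr1 := rr_lt m
  have h1r : 0 < 1 - rr m := by linarith
  have h2 : ((2 : ℝ) ^ (1 / (2 * (m : ℝ))))⁻¹ < 1 :=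
    inv_lt_one_of_one_lt₀ (Real.one_lt_rpow (by norm_num) (by positivity))
  have h3 : 0 < 1 - ((2 : ℝ) ^ (1 / (2 * (m : ℝ))))⁻¹ := by linarith
  unfold CW
  positivity

theorem ext_zero_of_null {K : Set (Eu m)} (h0 : volume K = 0) (x : Eu m) (t : ℝ) :
    ext (ind K) x t = 0 := by
  unfold ext
  have : (fun ξ : Eu m => cexp ((2 * Real.pi * (⟪ξ, x⟫ + t * ‖ξ‖ ^ 2) : ℝ) * I) * ind K ξ)
      =ᵐ[volume] fun _ => (0 : ℂ) := by
    have h1 : ∀ᵐ ξ : Eu m, ξ ∉ K := by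
      rw [ae_iff]
      simpa using h0
    filter_upwards [h1] with ξ hξ
    unfold ind
    rw [indicator_of_notMem hξ, mul_zero]
  rw [integral_congr_ae this, integral_zero]

/-- The endpoint weak type inequality, uniformly over convex sets. -/
theorem weak_convex (hm : 1 ≤ m) {K : Set (Eu m)} (hK : Convex ℝ K) (hKm : MeasurableSet K)
    (hfin : volume K ≠ ∞) {lam : ℝ} (hlam : 0 < lam) :
    volume {p : Eu m × ℝ | lam < ‖ext (ind K) p.1 p.2‖}
      ≤ ENNReal.ofReal (CW m * lam ^ (-(2 + 2 / (m : ℝ)))) * volume K := by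
  rcases eq_or_ne (volume K) 0 with h0 | hpos
  · have : {p : Eu m × ℝ | lam < ‖ext (ind K) p.1 p.2‖} = ∅ := by
      ext p
      simp only [mem_ofPred_eq, mem_empty_iff_false, iff_false, not_lt]
      rw [ext_zero_of_null h0, norm_zero]
      exact hlam.le
    rw [this, measure_empty]
    exact zero_le
  have hm0 : (0 : ℝ) < m := by exact_mod_cast hm
  obtain ⟨M, hM, hdet, hvol⟩ := auerbach hm hK hpos hfin
  have hr0 := rr_pos m
  have hr1 := rr_lt m
  have h1r : 0 < 1 - rr m := by linarith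
  set V : ℝ := (volume K).toReal with hV
  have hV0 : 0 ≤ V := ENNReal.toReal_nonneg
  have hVe : volume K = ENNReal.ofReal V := (ENNReal.ofReal_toReal hfin).symm
  have h := space_time hm (ind_int hKm hfin) (S := sh M) (sh_meas M) (sh_disj M) (sh_union M)
    (sh_vol M hdet) (L := fun k => Real.sqrt (m ^ 2 / 2 ^ k * (8 * 2 ^ k) ^ m))
    (M := fun k => m ^ 2 / 2 ^ k * V) (c := fun k => (1 - rr m) * rr m ^ k)
    (fun k => Real.sqrt_nonneg _) (fun k => by positivity) (fun k => by positivity)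
    (by
      have h1 := (hasSum_geometric_of_lt_one hr0.le hr1).mul_left (1 - rr m)
      rwa [mul_inv_cancel₀ h1r.ne'] at h1)
    (fun k => sh_L1 hm hK hKm hfin hM hdet hvol k)
    (fun k => by
      rw [ENNReal.ofReal_mul (by positivity), ← hVe]
      exact sh_L2 hm hK hKm hfin hM k)
    hlam
  refine h.trans ?_
  simp only [term_eq hm _ V hlam]
  set x : ℝ := ((2 : ℝ) ^ (1 / (2 * (m : ℝ))))⁻¹ with hx
  have hx0 : 0 ≤ x := by positivity
  have hx1 : x < 1 := inv_lt_one_of_one_lt₀ (Real.one_lt_rpow (by norm_num) (by positivity))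
  have hsum := hasSum_geometric_of_lt_one hx0 hx1
  set A : ℝ := 8 * m ^ 2 * ((m : ℝ) ^ 2) ^ (1 / (m : ℝ)) / (1 - rr m) ^ (2 + 2 / (m : ℝ)) *
        lam ^ (-(2 + 2 / (m : ℝ))) with hA
  have hA0 : 0 ≤ A := by positivity
  have hs2 := hsum.mul_left (A * V)
  rw [← ENNReal.ofReal_tsum_of_nonneg (fun k => by positivity) hs2.summable, hs2.tsum_eq]
  have hx2 : 0 < 1 - x := by linarith
  rw [hVe, ← ENNReal.ofReal_mul (by
    have := CW_nonneg hm
    positivity)]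
  refine ENNReal.ofReal_le_ofReal (le_of_eq ?_)
  rw [hA, CW, ← hx]
  ring

end Pool.Agent.TH297.QC
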